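import Pool.Agent.MP_8be872_ag.H20.Module

/-! Triangular elimination: the pole conditions characterize the span. -/

namespace Pool.Agent.MP_8be872_ag.H20

open Finset H56

variable {R K : Type} [CommRing R] [Field K] [Algebra R K] [IsFractionRing R K]
variable {ι : Type} [Fintype ι] [DecidableEq ι]

/-- The generating vectors. -/
def gens (K : Type) [Field K] [Algebra R K] (h : Rˣ) (Y : ι → Rˣ) (e : ι → ℤ) (v : ℕ) :
    Set (Finset ι → K) :=
  {f | ∃ d r ν : Fin v → ℤ, Function.Injective r ∧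
    f = vecB (algebraMap R K h) (im (algebraMap R K) Y) e d r ν}

theorem TB_shift {v : ℕ} (h : K) (Y : ι → K) (hY : ∀ i, Y i ≠ 0) (e : ι → ℤ) (d r ν : Fin v → ℤ)
    (σ : Fin v ↪ ι) (a : Fin v) :
    TB h Y e d r (ν - Pi.single a 1) σ = TB h Y e d r ν σ / Y (σ a) := by
  unfold TB
  split_ifs
  swap
  · simp
  have : (∏ a', Y (σ a') ^ (ν - Pi.single a 1 : Fin v → ℤ) a') =
      (∏ a', Y (σ a') ^ ν a') / Y (σ a) := by
    simp only [Pi.sub_apply, zpow_sub₀ (hY _), prod_div_distrib]
    congr 1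
    rw [prod_eq_single a]
    · simp
    · intro a' _ ha'; simp [ha']
    · simp
  rw [this]
  ring

omit [IsFractionRing R K] in
theorem ins_mem (h : Rˣ) (Y : ι → Rˣ) (e : ι → ℤ) {v : ℕ} (d r : Fin v → ℤ)
    (hr : Function.Injective r) (S : Finset (Fin v × ι)) (ν : Fin v → ℤ) :
    (fun I => ∑ σ : Fin v ↪ ι with univ.map σ = I,
      TB (algebraMap R K h) (im (algebraMap R K) Y) e d r ν σ *
        ∏ p ∈ S, (1 - im (algebraMap R K) Y p.2 / im (algebraMap R K) Y (σ p.1))) ∈
      Submodule.span R (gens K h Y e v) := by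
  induction S using Finset.induction_on generalizing ν with
  | empty =>
    refine Submodule.subset_span ⟨d, r, ν, hr, ?_⟩
    funext I
    simp [vecB]
  | insert p S hp ih =>
    have h1 := Submodule.sub_mem _ (ih ν)
      (Submodule.smul_mem _ (Y p.2 : R) (ih (ν - Pi.single p.1 1)))
    refine (congrArg (· ∈ Submodule.span R (gens K h Y e v)) ?_).mp h1
    funext I
    rw [Pi.sub_apply, Pi.smul_apply, Algebra.smul_def, mul_sum, ← sum_sub_distrib]
    refine sum_congr rfl fun σ _ => ?_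
    rw [prod_insert hp, TB_shift _ _ (im_ne _ _)]
    unfold im
    ring

theorem elementary {h : Rˣ} {Y : ι → Rˣ} {φ ψ : ι → ι → R →+* K} (G : Gen h Y φ ψ) (e : ι → ℤ)
    (rk : ι → ℤ) (hrk : Function.Injective rk) (hre : ∀ b c, e b < e c → rk b < rk c)
    {v : ℕ} (I₀ : Finset ι) (hI₀ : I₀.card = v) :
    ∃ E ∈ Submodule.span R (gens K h Y e v), ∃ M : R,
      (∀ I, I ≠ I₀ → ∑ i ∈ I₀, rk i ≤ ∑ i ∈ I, rk i → E I = 0) ∧
      E I₀ * algebraMap R K M = 1 ∧
      (∀ b ∈ I₀, ∀ c ∉ I₀, rk c < rk b → pR Y b c ∣ M) ∧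
      ∀ b ∈ I₀, ∀ c ∉ I₀, e b ≤ e c → hR h Y b c ∣ M := by
  classical
  have inj := IsFractionRing.injective R K
  have hp : ∀ b c, b ≠ c → algebraMap R K (pR Y b c) ≠ 0 := fun b c hbc h0 =>
    G.p0 b c hbc (inj (by simpa using h0))
  have hh : ∀ b c, algebraMap R K (hR h Y b c) ≠ 0 := fun b c h0 =>
    G.h0 b c (inj (by simpa using h0))
  obtain ⟨σ₀, hσ₀⟩ : ∃ σ₀ : Fin v ↪ ι, univ.map σ₀ = I₀ := by
    refine ⟨(I₀.equivFinOfCardEq hI₀).symm.toEmbedding.trans (Function.Embedding.subtype _), ?_⟩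
    rw [← map_map, map_univ_equiv]
    ext i
    simp
  set YK := im (algebraMap R K) Y with hYK
  set S : Finset (Fin v × ι) := {p | rk (σ₀ p.1) < rk p.2 ∧ e p.2 = e (σ₀ p.1)} with hS
  set T : (Fin v ↪ ι) → K := fun σ =>
    TB (algebraMap R K h) YK e (fun a => e (σ₀ a)) (fun a => rk (σ₀ a)) 0 σ *
      ∏ p ∈ S, (1 - YK p.2 / YK (σ p.1)) with hT
  have hT0 : ∀ σ : Fin v ↪ ι, σ ≠ σ₀ → ∑ i ∈ I₀, rk i ≤ ∑ i ∈ univ.map σ, rk i → T σ = 0 := by
    intro σ hσ hle
    by_contra hne
    have h1 : ∀ a, rk (σ a) ≤ rk (σ₀ a) := by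
      intro a
      by_contra hlt
      push Not at hlt
      obtain ⟨h2, h3⟩ := mul_ne_zero_iff.1 hne
      have h4 : e (σ a) ≤ e (σ₀ a) := by
        by_contra h5
        apply h2
        unfold TB
        exact if_neg fun h6 => h5 (h6 a)
      have h5 : e (σ a) = e (σ₀ a) := by
        refine le_antisymm h4 (not_lt.1 fun h6 => ?_)
        have := hre _ _ h6
        omega
      apply h3
      refine prod_eq_zero (i := (a, σ a)) (by simp [hS, hlt, h5]) ?_
      simp [div_self (im_ne (algebraMap R K) Y _), hYK]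
    obtain ⟨a, ha⟩ : ∃ a, σ a ≠ σ₀ a := by
      by_contra h2
      push Not at h2
      exact hσ (Function.Embedding.ext h2)
    have h2 : ∑ a, rk (σ a) < ∑ a, rk (σ₀ a) :=
      sum_lt_sum (fun a _ => h1 a) ⟨a, mem_univ _, lt_of_le_of_ne (h1 a) fun h => ha (hrk h)⟩
    rw [← hσ₀, sum_map, sum_map] at hle
    omega
  refine ⟨_, ins_mem h Y e (fun a => e (σ₀ a)) (fun a => rk (σ₀ a))
    (hrk.comp σ₀.injective) S 0,
    ∏ a, ∏ j ∈ I₀ᶜ, (if rk j < rk (σ₀ a) then pR Y (σ₀ a) j else 1) *
      (if e (σ₀ a) ≤ e j then hR h Y (σ₀ a) j else 1), ?_, ?_, ?_, ?_⟩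
  · intro I hI hle
    refine sum_eq_zero fun σ hσ => hT0 σ ?_ ?_
    · rintro rfl
      exact hI ((mem_filter.1 hσ).2.symm.trans hσ₀)
    · rw [(mem_filter.1 hσ).2]; exact hle
  · change (∑ σ : Fin v ↪ ι with univ.map σ = I₀, T σ) * _ = 1
    rw [sum_eq_single σ₀ (fun σ hσ hne => hT0 σ hne (by rw [(mem_filter.1 hσ).2]))
      (fun h => absurd (mem_filter.2 ⟨mem_univ σ₀, hσ₀⟩) h)]
    simp only [hT]
    unfold TB
    rw [if_pos fun _ => le_rfl]
    have hden : denR (algebraMap R K h) YK e (fun a => e (σ₀ a)) σ₀ ≠ 0 := by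
      unfold denR
      refine prod_ne_zero_iff.2 fun a _ => prod_ne_zero_iff.2 fun j _ => mul_ne_zero ?_ ?_
      · split_ifs with h1
        · rw [hYK, ← map_pR]; exact hp _ _ h1.2.symm
        · exact one_ne_zero
      · split_ifs with h1
        · rw [hYK, ← map_hR]; exact hh _ _
        · exact one_ne_zero
    rw [div_mul_eq_mul_div, div_mul_eq_mul_div, div_eq_one_iff_eq hden]
    simp only [Pi.zero_apply, zpow_zero, prod_const_one, one_mul]
    rw [hS, prod_filter, Fintype.prod_prod_type, map_prod]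
    unfold numB denR
    rw [← prod_mul_distrib, ← prod_mul_distrib]
    refine prod_congr rfl fun a _ => ?_
    have h1 : ∀ j, (if e j ≤ e (σ₀ a) ∧ j ≠ σ₀ a then 1 - YK j / YK (σ₀ a) else 1) *
        (if e (σ₀ a) ≤ e j then 1 - algebraMap R K h * (YK (σ₀ a) / YK j) else 1) =
        ((if rk j < rk (σ₀ a) then 1 - YK j / YK (σ₀ a) else 1) *
          (if e (σ₀ a) ≤ e j then 1 - algebraMap R K h * (YK (σ₀ a) / YK j) else 1)) *
        (if rk (σ₀ a) < rk j ∧ e j = e (σ₀ a) then 1 - YK j / YK (σ₀ a) else 1) := by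
      intro j
      rw [mul_right_comm]
      congr 1
      have h2 := hre j (σ₀ a)
      have h3 := hre (σ₀ a) j
      by_cases h4 : j = σ₀ a
      · simp [h4]
      have h5 : rk j ≠ rk (σ₀ a) := fun h => h4 (hrk h)
      by_cases h6 : rk j < rk (σ₀ a)
      · rw [if_pos ⟨by omega, h4⟩, if_pos h6, if_neg (by omega), mul_one]
      · rw [if_neg h6, one_mul]
        exact if_congr ⟨fun h => ⟨by omega, by omega⟩, fun h => ⟨by omega, h4⟩⟩ rfl rfl
    simp only [h1]
    rw [prod_mul_distrib (s := (univ : Finset ι)), mul_right_comm]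
    refine congrArg₂ (· * ·) ?_ rfl
    rw [prod_split σ₀, hσ₀, map_prod]
    refine congrArg₂ (· * ·) ?_ ?_
    · refine prod_congr rfl fun a' _ => ?_
      congr 1
      have h2 := hre (σ₀ a') (σ₀ a)
      have h3 := hre (σ₀ a) (σ₀ a')
      refine if_congr ?_ rfl rfl
      unfold Above
      beta_reduce
      omega
    · refine prod_congr rfl fun j _ => ?_
      rw [map_mul]
      congr 1
      · split_ifs
        · rw [map_pR]
        · simp
      · split_ifs
        · rw [map_hR]
        · simp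
  · intro b hb c hc hlt
    obtain ⟨a, -, rfl⟩ := mem_map.1 (hσ₀ ▸ hb)
    refine dvd_trans ?_ (dvd_prod_of_mem _ (mem_univ a))
    refine dvd_trans ?_ (dvd_prod_of_mem _ (mem_compl.2 hc))
    rw [if_pos hlt]
    exact dvd_mul_right _ _
  · intro b hb c hc hlt
    obtain ⟨a, -, rfl⟩ := mem_map.1 (hσ₀ ▸ hb)
    refine dvd_trans ?_ (dvd_prod_of_mem _ (mem_univ a))
    refine dvd_trans ?_ (dvd_prod_of_mem _ (mem_compl.2 hc))
    rw [if_pos hlt]
    exact dvd_mul_left _ _

omit [Fintype ι] in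
theorem sum_swap_rank (rk : ι → ℤ) (I : Finset ι) {b c : ι} (hb : b ∈ I) (hc : c ∉ I) :
    ∑ i ∈ I.map (Equiv.swap b c).toEmbedding, rk i = ∑ i ∈ I, rk i + (rk c - rk b) := by
  rw [sum_map, ← add_sum_erase I _ hb, ← add_sum_erase I _ hb]
  have : ∑ i ∈ I.erase b, rk ((Equiv.swap b c).toEmbedding i) = ∑ i ∈ I.erase b, rk i := by
    refine sum_congr rfl fun i hi => ?_
    have h1 : i ≠ c := fun h => hc (h ▸ mem_of_mem_erase hi)
    simp [Equiv.swap_apply_of_ne_of_ne (ne_of_mem_erase hi) h1]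
  rw [this]
  simp
  ring

theorem HH_le_span [CharZero K] {h : Rˣ} {Y : ι → Rˣ} {φ ψ : ι → ι → R →+* K} (G : Gen h Y φ ψ)
    (e : ι → ℤ) (v : ℕ) : HH h Y φ ψ e v ≤ Submodule.span R (gens K h Y e v) := by
  classical
  obtain ⟨rk, hrk, hre⟩ : ∃ rk : ι → ℤ, Function.Injective rk ∧
      ∀ b c, e b < e c → rk b < rk c := by
    let t := Fintype.equivFin ι
    have ht : ∀ b, ((t b : ℕ) : ℤ) < Fintype.card ι := fun b => by exact_mod_cast (t b).2
    have hlt : ∀ b c, e b < e c →
        e b * Fintype.card ι + (t b : ℕ) < e c * Fintype.card ι + (t c : ℕ) := by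
      intro b c hbc
      have h1 := ht b
      have h2 : (0 : ℤ) ≤ (t c : ℕ) := by positivity
      nlinarith
    refine ⟨fun b => e b * Fintype.card ι + (t b : ℕ), fun b c hbc => ?_, hlt⟩
    simp only at hbc
    have h1 : e b = e c := by
      rcases lt_trichotomy (e b) (e c) with h | h | h
      · exact absurd hbc (hlt b c h).ne
      · exact h
      · exact absurd hbc (hlt c b h).ne'
    rw [h1, add_right_inj] at hbc
    exact t.injective (Fin.ext (by exact_mod_cast hbc))
  have hle : Submodule.span R (gens K h Y e v) ≤ HH h Y φ ψ e v := by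
    rw [Submodule.span_le]
    rintro _ ⟨d, r, ν, hr, rfl⟩
    exact vecB_mem G e d r ν hr
  have main : ∀ n, ∀ S : Finset (Finset ι), S.card = n →
      (∀ I ∈ S, ∀ I', ∑ i ∈ I', rk i < ∑ i ∈ I, rk i → I' ∈ S) →
      ∀ J ∈ HH h Y φ ψ e v, (∀ I ∉ S, J I = 0) → J ∈ Submodule.span R (gens K h Y e v) := by
    intro n
    induction n with
    | zero =>
      intro S hS _ J _ hJ
      rw [card_eq_zero] at hS
      have : J = 0 := funext fun I => hJ I (by simp [hS])
      rw [this]
      exact zero_mem _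
    | succ n ih =>
      intro S hS hdown J HJ hJ
      obtain ⟨I₀, hI₀, hmax⟩ := exists_max_image S (fun I => ∑ i ∈ I, rk i)
        (card_pos.1 (by omega))
      have hS' : (S.erase I₀).card = n := by rw [card_erase_of_mem hI₀]; omega
      have hdown' : ∀ I ∈ S.erase I₀, ∀ I', ∑ i ∈ I', rk i < ∑ i ∈ I, rk i → I' ∈ S.erase I₀ := by
        intro I hI I' hlt
        refine mem_erase.2 ⟨?_, hdown I (mem_of_mem_erase hI) I' hlt⟩
        rintro rfl
        exact absurd (hmax I (mem_of_mem_erase hI)) (not_le.2 hlt)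
      by_cases hv : I₀.card = v
      swap
      · refine ih _ hS' hdown' J HJ fun I hI => ?_
        by_cases h1 : I = I₀
        · exact Cond.card HJ I (h1 ▸ hv)
        · exact hJ I fun h2 => hI (mem_erase.2 ⟨h1, h2⟩)
      obtain ⟨E, hE, M, hE0, hEM, hMp, hMh⟩ := elementary G e rk hrk hre I₀ hv
      have hswap : ∀ b ∈ I₀, ∀ c ∉ I₀, rk b < rk c →
          J (I₀.map (Equiv.swap b c).toEmbedding) = 0 := by
        intro b hb c hc hlt
        refine hJ _ fun h1 => ?_
        have h2 := hmax _ h1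
        rw [sum_swap_rank rk I₀ hb hc] at h2
        omega
      obtain ⟨g, hg⟩ : ∃ g : R, algebraMap R K g = J I₀ * algebraMap R K M := by
        refine mem_range_of_reg (F := K) (primes h Y)
          (mul_mem (Cond.inL HJ I₀) (Subalgebra.algebraMap_mem _ _)) ?_
        have hdiv : ∀ (χ : R →+* K) (π : R), algebraMap R K π * J I₀ ∈ reg K χ → π ∣ M →
            J I₀ * algebraMap R K M ∈ reg K χ := by
          rintro χ π h1 ⟨M', rfl⟩
          rw [map_mul, ← mul_assoc, mul_comm (J I₀)]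
          exact mul_mem h1 (Subalgebra.algebraMap_mem _ _)
        rintro π (⟨b, c, hbc, rfl⟩ | ⟨b, c, rfl⟩)
        · refine ⟨G.p0 b c hbc, φ b c, G.pker b c hbc, ?_⟩
          have h1 := Cond.p1 HJ b c hbc I₀
          have h2 := Cond.p2 HJ b c hbc I₀
          have hne : rk b ≠ rk c := fun h => hbc (hrk h)
          have hfix : (b ∈ I₀ ↔ c ∈ I₀) → J I₀ * algebraMap R K M ∈ reg K (φ b c) := by
            intro hiff
            have h3 : I₀.map (Equiv.swap b c).toEmbedding = I₀ := by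
              ext i
              simp only [mem_map_equiv, Equiv.symm_swap, Equiv.swap_apply_def]
              split_ifs with h4 h5
              · rw [h4, hiff]
              · rw [h5, hiff]
              · rfl
            rw [h3] at h2
            have h4 : Val (φ b c) ((2 : K)⁻¹) (2 : K)⁻¹ := by
              have := (Val.one (K := K) (φ := φ b c)).add Val.one
              rw [one_add_one_eq_two] at this
              exact this.inv two_ne_zero
            have h5 : J I₀ = (2 : K)⁻¹ * (J I₀ + J I₀) := by ring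
            rw [h5]
            exact mul_mem (mul_mem h4.mem h2) (Subalgebra.algebraMap_mem _ _)
          by_cases hb : b ∈ I₀ <;> by_cases hc : c ∈ I₀
          · exact hfix (by simp [hb, hc])
          · by_cases hlt : rk c < rk b
            · exact hdiv _ _ h1 (hMp b hb c hc hlt)
            · rw [hswap b hb c hc (by omega), add_zero] at h2
              exact mul_mem h2 (Subalgebra.algebraMap_mem _ _)
          · by_cases hlt : rk b < rk c
            · exact hdiv _ _ h1 ((pR_dvd Y b c).trans (hMp c hc b hb hlt))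
            · rw [Equiv.swap_comm, hswap c hc b hb (by omega), add_zero] at h2
              exact mul_mem h2 (Subalgebra.algebraMap_mem _ _)
          · exact hfix (by simp [hb, hc])
        · refine ⟨G.h0 b c, ψ b c, G.hker b c, ?_⟩
          by_cases hal : b ∈ I₀ ∧ c ∉ I₀ ∧ e b ≤ e c
          · exact hdiv _ _ (Cond.h1 HJ b c I₀) (hMh b hal.1 c hal.2.1 hal.2.2)
          · exact mul_mem (Cond.h2 HJ b c I₀ hal) (Subalgebra.algebraMap_mem _ _)
      have h1 : J - g • E ∈ Submodule.span R (gens K h Y e v) := by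
        refine ih _ hS' hdown' _ (sub_mem HJ (Submodule.smul_mem _ g (hle hE))) fun I hI => ?_
        rw [Pi.sub_apply, Pi.smul_apply, Algebra.smul_def]
        by_cases h1 : I = I₀
        · rw [h1, hg]
          linear_combination (-J I₀) * hEM
        · have h2 : I ∉ S := fun h2 => hI (mem_erase.2 ⟨h1, h2⟩)
          rw [hJ I h2, hE0 I h1 (not_lt.1 fun h3 => h2 (hdown I₀ hI₀ I h3))]
          simp
      simpa using add_mem h1 (Submodule.smul_mem _ g hE)
  intro J HJ
  exact main _ univ rfl (fun _ _ _ _ => mem_univ _) J HJ fun I hI => absurd (mem_univ I) hI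

end Pool.Agent.MP_8be872_ag.H20
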