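import Mathlib

/-! Values of elements of a fraction field under a ring map to a field. -/

namespace Pool.Agent.MP_8be872_ag.H20

open Finset

variable {R K F : Type} [CommRing R] [Field K] [Algebra R K] [IsFractionRing R K] [Field F]

/-- `x` is a fraction `a / s` whose denominator survives `φ`, with value `y`. -/
def Val (φ : R →+* F) (x : K) (y : F) : Prop :=
  ∃ a s : R, φ s ≠ 0 ∧ x * algebraMap R K s = algebraMap R K a ∧ y * φ s = φ a

namespace Val

variable {φ : R →+* F}

omit [IsFractionRing R K] in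
theorem alg (r : R) : Val φ (algebraMap R K r) (φ r) := ⟨r, 1, by simp, by simp, by simp⟩

omit [IsFractionRing R K] in
theorem zero : Val φ (0 : K) 0 := by simpa using alg (K := K) (φ := φ) 0

omit [IsFractionRing R K] in
theorem one : Val φ (1 : K) 1 := by simpa using alg (K := K) (φ := φ) 1

omit [IsFractionRing R K] in
theorem add {x x' : K} {y y' : F} (h : Val φ x y) (h' : Val φ x' y') :
    Val φ (x + x') (y + y') := by
  obtain ⟨a, s, hs, h1, h2⟩ := h
  obtain ⟨a', s', hs', h1', h2'⟩ := h'
  refine ⟨a * s' + a' * s, s * s', by simp [hs, hs'], ?_, ?_⟩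
  · simp only [map_mul, map_add, ← h1, ← h1']; ring
  · simp only [map_mul, map_add, ← h2, ← h2']; ring

omit [IsFractionRing R K] in
theorem mul {x x' : K} {y y' : F} (h : Val φ x y) (h' : Val φ x' y') :
    Val φ (x * x') (y * y') := by
  obtain ⟨a, s, hs, h1, h2⟩ := h
  obtain ⟨a', s', hs', h1', h2'⟩ := h'
  refine ⟨a * a', s * s', by simp [hs, hs'], ?_, ?_⟩
  · simp only [map_mul, ← h1, ← h1']; ring
  · simp only [map_mul, ← h2, ← h2']; ring

omit [IsFractionRing R K] in
theorem neg {x : K} {y : F} (h : Val φ x y) : Val φ (-x) (-y) := by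
  obtain ⟨a, s, hs, h1, h2⟩ := h
  refine ⟨-a, s, hs, ?_, ?_⟩
  · simp only [map_neg, ← h1]; ring
  · simp only [map_neg, ← h2]; ring

omit [IsFractionRing R K] in
theorem sub {x x' : K} {y y' : F} (h : Val φ x y) (h' : Val φ x' y') :
    Val φ (x - x') (y - y') := by
  simpa [sub_eq_add_neg] using h.add h'.neg

theorem inv {x : K} {y : F} (h : Val φ x y) (hy : y ≠ 0) : Val φ x⁻¹ y⁻¹ := by
  obtain ⟨a, s, hs, h1, h2⟩ := h
  have ha : φ a ≠ 0 := by rw [← h2]; exact mul_ne_zero hy hs
  have ha0 : algebraMap R K a ≠ 0 := by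
    intro h0
    have : a = 0 := IsFractionRing.injective R K (by simpa using h0)
    exact ha (by simp [this])
  have hx : x ≠ 0 := by rintro rfl; exact ha0 (by simpa using h1.symm)
  refine ⟨s, a, ha, ?_, ?_⟩
  · rw [← h1]; field_simp
  · rw [← h2]; field_simp

theorem div {x x' : K} {y y' : F} (h : Val φ x y) (h' : Val φ x' y') (hy : y' ≠ 0) :
    Val φ (x / x') (y / y') := by
  simpa [div_eq_mul_inv] using h.mul (h'.inv hy)

theorem unique {x : K} {y y' : F} (h : Val φ x y) (h' : Val φ x y') : y = y' := by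
  obtain ⟨a, s, hs, h1, h2⟩ := h
  obtain ⟨a', s', hs', h1', h2'⟩ := h'
  have h3 : a * s' = a' * s := by
    apply IsFractionRing.injective R K
    simp only [map_mul, ← h1, ← h1']; ring
  have h4 := congrArg φ h3
  simp only [map_mul, ← h2, ← h2'] at h4
  apply mul_right_cancel₀ (mul_ne_zero hs hs')
  linear_combination h4

omit [IsFractionRing R K] in
theorem prod {α : Type} (s : Finset α) {f : α → K} {g : α → F}
    (h : ∀ i ∈ s, Val φ (f i) (g i)) : Val φ (∏ i ∈ s, f i) (∏ i ∈ s, g i) := by
  classical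
  induction s using Finset.induction_on with
  | empty => simpa using one
  | insert a s ha ih =>
    rw [prod_insert ha, prod_insert ha]
    exact (h a (mem_insert_self _ _)).mul (ih fun i hi => h i (mem_insert_of_mem hi))

omit [IsFractionRing R K] in
theorem sum {α : Type} (s : Finset α) {f : α → K} {g : α → F}
    (h : ∀ i ∈ s, Val φ (f i) (g i)) : Val φ (∑ i ∈ s, f i) (∑ i ∈ s, g i) := by
  classical
  induction s using Finset.induction_on with
  | empty => simpa using zero
  | insert a s ha ih =>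
    rw [sum_insert ha, sum_insert ha]
    exact (h a (mem_insert_self _ _)).add (ih fun i hi => h i (mem_insert_of_mem hi))

omit [IsFractionRing R K] in
theorem pow {x : K} {y : F} (h : Val φ x y) (n : ℕ) : Val φ (x ^ n) (y ^ n) := by
  induction n with
  | zero => simpa using one
  | succ n ih => rw [pow_succ, pow_succ]; exact ih.mul h

theorem zpow {x : K} {y : F} (h : Val φ x y) (hy : y ≠ 0) (n : ℤ) : Val φ (x ^ n) (y ^ n) := by
  cases n with
  | ofNat n => simpa using h.pow n
  | negSucc n =>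
    rw [zpow_negSucc, zpow_negSucc]
    exact (h.pow _).inv (pow_ne_zero _ hy)

omit [IsFractionRing R K] in
theorem ite (p : Prop) [Decidable p] {x x' : K} {y y' : F} (h : p → Val φ x y)
    (h' : ¬ p → Val φ x' y') : Val φ (if p then x else x') (if p then y else y') := by
  by_cases hp : p
  · simpa [hp] using h hp
  · simpa [hp] using h' hp

end Val

/-- The elements that have a value. -/
def reg (K : Type) [Field K] [Algebra R K] (φ : R →+* F) : Subalgebra R K where
  carrier := {x | ∃ y, Val φ x y}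
  mul_mem' := fun ⟨_, h⟩ ⟨_, h'⟩ => ⟨_, h.mul h'⟩
  add_mem' := fun ⟨_, h⟩ ⟨_, h'⟩ => ⟨_, h.add h'⟩
  algebraMap_mem' := fun r => ⟨_, Val.alg r⟩

omit [IsFractionRing R K] in
theorem Val.mem {φ : R →+* F} {x : K} {y : F} (h : Val φ x y) : x ∈ reg K φ := ⟨y, h⟩

theorem reg_of_val_zero {φ : R →+* F} {π : R} (hπ : π ≠ 0) (hker : ∀ a, φ a = 0 → π ∣ a) {x : K}
    (h : Val φ (algebraMap R K π * x) 0) : x ∈ reg K φ := by
  obtain ⟨a, s, hs, h1, h2⟩ := h
  obtain ⟨a', rfl⟩ := hker a (by simpa using h2.symm)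
  have h0 : algebraMap R K π ≠ 0 := fun h0 => hπ (IsFractionRing.injective R K (by simpa using h0))
  refine ⟨φ a' / φ s, a', s, hs, ?_, by field_simp⟩
  apply mul_left_cancel₀ h0
  rw [← map_mul, ← h1]; ring

/-- An element with denominators in a family of primes, regular at each of them, is integral. -/
theorem mem_range_of_reg (P : Set R) {x : K}
    (hx : x ∈ Algebra.adjoin R ((fun π => (algebraMap R K π)⁻¹) '' P))
    (hP : ∀ π ∈ P, π ≠ 0 ∧ ∃ φ : R →+* F, (∀ a, φ a = 0 ↔ π ∣ a) ∧ x ∈ reg K φ) :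
    ∃ r : R, algebraMap R K r = x := by
  have h0 : ∀ π ∈ P, algebraMap R K π ≠ 0 := fun π hπ h0 =>
    (hP π hπ).1 (IsFractionRing.injective R K (by simpa using h0))
  have h1 : ∀ z ∈ Algebra.adjoin R ((fun π => (algebraMap R K π)⁻¹) '' P),
      ∃ s ∈ Submonoid.closure P, ∃ a : R, z * algebraMap R K s = algebraMap R K a := by
    intro z hz
    induction hz using Algebra.adjoin_induction with
    | mem z hz =>
      obtain ⟨π, hπ, rfl⟩ := hz
      exact ⟨π, Submonoid.subset_closure hπ, 1, by simp [h0 π hπ]⟩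
    | algebraMap r => exact ⟨1, one_mem _, r, by simp⟩
    | add z z' _ _ ih ih' =>
      obtain ⟨s, hs, a, ha⟩ := ih
      obtain ⟨s', hs', a', ha'⟩ := ih'
      refine ⟨s * s', mul_mem hs hs', a * s' + a' * s, ?_⟩
      simp only [map_mul, map_add, ← ha, ← ha']; ring
    | mul z z' _ _ ih ih' =>
      obtain ⟨s, hs, a, ha⟩ := ih
      obtain ⟨s', hs', a', ha'⟩ := ih'
      refine ⟨s * s', mul_mem hs hs', a * a', ?_⟩
      simp only [map_mul, ← ha, ← ha']; ring
  obtain ⟨s, hs, a, ha⟩ := h1 x hx
  induction hs using Submonoid.closure_induction_left generalizing a with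
  | one => exact ⟨a, by simpa using ha.symm⟩
  | mul_left π hπ s _ ih =>
    obtain ⟨-, φ, hker, y, a', t, ht, h2, -⟩ := hP π hπ
    have h3 : a * t = π * (s * a') := by
      apply IsFractionRing.injective R K
      simp only [map_mul, ← ha, ← h2]; ring
    have h4 : φ a = 0 := by
      have := congrArg φ h3
      rw [map_mul, map_mul, (hker π).2 dvd_rfl, zero_mul] at this
      exact (mul_eq_zero.1 this).resolve_right ht
    obtain ⟨a'', rfl⟩ := (hker a).1 h4
    apply ih a''
    apply mul_left_cancel₀ (h0 π hπ)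
    rw [← map_mul, ← ha, map_mul]; ring

end Pool.Agent.MP_8be872_ag.H20
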