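import Pool.Agent.MP_8be872_ag.H56.Spec
import Pool.Agent.MP_8be872_ag.H20.Val

/-! Values of the vectors at generic points and along the divisors `h * Y b = Y c`. -/

namespace Pool.Agent.MP_8be872_ag.H20

open Finset H56

variable {R K F : Type} [CommRing R] [Field K] [Algebra R K] [IsFractionRing R K] [Field F]
variable {ι : Type} [Fintype ι] [DecidableEq ι] {v : ℕ}

theorem one_sub_div_ne {a b : F} (hb : b ≠ 0) (hab : a ≠ b) : 1 - a / b ≠ 0 := by
  intro h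
  apply hab
  field_simp at h
  linear_combination -h

theorem one_sub_mul_div_ne {h a b : F} (hb : b ≠ 0) (hab : h * a ≠ b) :
    1 - h * (a / b) ≠ 0 := by
  rw [← mul_div_assoc]; exact one_sub_div_ne hb hab

theorem val_TB {φ : R →+* F} {h : K} {h' : F} {Y : ι → K} {y : ι → F} (hh : Val φ h h')
    (hY : ∀ i, Val φ (Y i) (y i)) (hy0 : ∀ i, y i ≠ 0) (hy : ∀ i j, i ≠ j → y i ≠ y j)
    (hhy : ∀ i j, h' * y i ≠ y j) (e : ι → ℤ) (d r ν : Fin v → ℤ) (σ : Fin v ↪ ι) :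
    Val φ (TB h Y e d r ν σ) (TB h' y e d r ν σ) := by
  unfold TB
  refine Val.ite _ (fun _ => ?_) fun _ => Val.zero
  refine Val.div (Val.mul (Val.prod _ fun a _ => (hY _).zpow (hy0 _) _) ?_) ?_ ?_
  · unfold numB
    refine Val.prod _ fun a _ => Val.prod _ fun a' _ => Val.mul ?_ ?_
    · exact Val.ite _ (fun _ => Val.one.sub ((hY _).div (hY _) (hy0 _))) fun _ => Val.one
    · exact Val.ite _ (fun _ => Val.one.sub (hh.mul ((hY _).div (hY _) (hy0 _))))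
        fun _ => Val.one
  · unfold denR
    refine Val.prod _ fun a _ => Val.prod _ fun j _ => Val.mul ?_ ?_
    · exact Val.ite _ (fun _ => Val.one.sub ((hY _).div (hY _) (hy0 _))) fun _ => Val.one
    · exact Val.ite _ (fun _ => Val.one.sub (hh.mul ((hY _).div (hY _) (hy0 _))))
        fun _ => Val.one
  · unfold denR
    refine prod_ne_zero_iff.2 fun a _ => prod_ne_zero_iff.2 fun j _ => mul_ne_zero ?_ ?_
    · split_ifs with h1
      · exact one_sub_div_ne (hy0 _) (hy _ _ h1.2)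
      · exact one_ne_zero
    · split_ifs with h1
      · exact one_sub_mul_div_ne (hy0 _) (hhy _ _)
      · exact one_ne_zero

theorem val_vecB {φ : R →+* F} {h : K} {h' : F} {Y : ι → K} {y : ι → F} (hh : Val φ h h')
    (hY : ∀ i, Val φ (Y i) (y i)) (hy0 : ∀ i, y i ≠ 0) (hy : ∀ i j, i ≠ j → y i ≠ y j)
    (hhy : ∀ i j, h' * y i ≠ y j) (e : ι → ℤ) (d r ν : Fin v → ℤ) (I : Finset ι) :
    Val φ (vecB h Y e d r ν I) (vecB h' y e d r ν I) :=
  Val.sum _ fun σ _ => val_TB hh hY hy0 hy hhy e d r ν σ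

omit [IsFractionRing R K] in
theorem prod_split (σ : Fin v ↪ ι) (f : ι → K) :
    ∏ j, f j = (∏ a, f (σ a)) * ∏ j ∈ (univ.map σ)ᶜ, f j := by
  rw [← prod_mul_prod_compl (univ.map σ), prod_map]

/-- The factors of type `1 - h Y i / Y j` after cancellation. -/
theorem TB_eq_H (h : K) (Y : ι → K) (e : ι → ℤ) (d r ν : Fin v → ℤ) (σ : Fin v ↪ ι)
    (hK : ∀ i j, 1 - h * (Y i / Y j) ≠ 0) (hadm : ∀ a, e (σ a) ≤ d a) :
    TB h Y e d r ν σ =
      ((∏ a, Y (σ a) ^ ν a) *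
        (∏ a, ∏ a', if Above d r a a' then 1 - Y (σ a') / Y (σ a) else 1) *
        (∏ a, ∏ j, if e j ≤ d a ∧ j ≠ σ a then 1 - Y j / Y (σ a) else 1)⁻¹ *
        (∏ a, ∏ a', if d a ≤ d a' ∧ ¬ d a ≤ e (σ a') then 1 - h * (Y (σ a) / Y (σ a')) else 1)) *
        ∏ p ∈ univ ×ˢ (univ.map σ)ᶜ,
          if d p.1 ≤ e p.2 then (1 - h * (Y (σ p.1) / Y p.2))⁻¹ else 1 := by
  unfold TB numB denR
  rw [if_pos hadm]
  simp only [prod_mul_distrib]
  have h1 : (∏ a, ∏ j, if d a ≤ e j then 1 - h * (Y (σ a) / Y j) else 1) =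
      (∏ a, ∏ a', if d a ≤ e (σ a') then 1 - h * (Y (σ a) / Y (σ a')) else 1) *
      ∏ a, ∏ j ∈ (univ.map σ)ᶜ, if d a ≤ e j then 1 - h * (Y (σ a) / Y j) else 1 := by
    rw [← prod_mul_distrib]
    exact prod_congr rfl fun a _ => prod_split σ _
  have h2 : (∏ a, ∏ a', if d a ≤ d a' then 1 - h * (Y (σ a) / Y (σ a')) else 1) =
      (∏ a, ∏ a', if d a ≤ d a' ∧ ¬ d a ≤ e (σ a') then 1 - h * (Y (σ a) / Y (σ a')) else 1) *
      ∏ a, ∏ a', if d a ≤ e (σ a') then 1 - h * (Y (σ a) / Y (σ a')) else 1 := by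
    rw [← prod_mul_distrib]
    refine prod_congr rfl fun a _ => ?_
    rw [← prod_mul_distrib]
    refine prod_congr rfl fun a' _ => ?_
    have := hadm a'
    by_cases h3 : d a ≤ e (σ a')
    · simp [h3, h3.trans this]
    · simp [h3]
  have h3 : (∏ p ∈ univ ×ˢ (univ.map σ)ᶜ,
      if d p.1 ≤ e p.2 then (1 - h * (Y (σ p.1) / Y p.2))⁻¹ else 1) =
      (∏ a, ∏ j ∈ (univ.map σ)ᶜ, if d a ≤ e j then 1 - h * (Y (σ a) / Y j) else 1)⁻¹ := by
    rw [prod_product, ← prod_inv_distrib]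
    refine prod_congr rfl fun a _ => ?_
    rw [← prod_inv_distrib]
    refine prod_congr rfl fun j _ => ?_
    split_ifs <;> simp
  have h4 : (∏ a, ∏ a', if d a ≤ e (σ a') then 1 - h * (Y (σ a) / Y (σ a')) else 1) ≠ 0 := by
    refine prod_ne_zero_iff.2 fun a _ => prod_ne_zero_iff.2 fun j _ => ?_
    split_ifs
    · exact hK _ _
    · exact one_ne_zero
  rw [h1, h2, h3, div_eq_mul_inv, mul_inv, mul_inv]
  generalize (∏ a, ∏ a', if d a ≤ e (σ a') then 1 - h * (Y (σ a) / Y (σ a')) else 1) = z at h4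
  have h5 : z * z⁻¹ = 1 := mul_inv_cancel₀ h4
  linear_combination ((∏ a, Y (σ a) ^ ν a) *
        (∏ a, ∏ a', if Above d r a a' then 1 - Y (σ a') / Y (σ a) else 1) *
        (∏ a, ∏ j, if e j ≤ d a ∧ j ≠ σ a then 1 - Y j / Y (σ a) else 1)⁻¹ *
        (∏ a, ∏ a', if d a ≤ d a' ∧ ¬ d a ≤ e (σ a') then 1 - h * (Y (σ a) / Y (σ a')) else 1) *
      (∏ a, ∏ j ∈ (univ.map σ)ᶜ, if d a ≤ e j then 1 - h * (Y (σ a) / Y j) else 1)⁻¹) * h5

omit [IsFractionRing R K] in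
theorem mul_prod_mem {α : Type} [DecidableEq α] (A : Subalgebra R K) (s : Finset α) (g : α → K)
    (π : K) (i₀ : α) (hπ : π ∈ A) (h0 : π * g i₀ ∈ A) (h1 : ∀ i ∈ s, i ≠ i₀ → g i ∈ A) :
    π * ∏ i ∈ s, g i ∈ A := by
  by_cases hi : i₀ ∈ s
  · rw [← mul_prod_erase s g hi, ← mul_assoc]
    exact A.mul_mem h0 (A.prod_mem fun i hi => h1 i (mem_of_mem_erase hi) (ne_of_mem_erase hi))
  · exact A.mul_mem hπ (A.prod_mem fun i hi' => h1 i hi' fun h => hi (h ▸ hi'))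

theorem local_H {ψ : R →+* F} {h : K} {h' : F} {Y : ι → K} {y : ι → F} (hh : Val ψ h h')
    (hY : ∀ i, Val ψ (Y i) (y i)) (hy0 : ∀ i, y i ≠ 0) (hy : ∀ i j, i ≠ j → y i ≠ y j)
    (b c : ι) (hhy : ∀ i j, h' * y i = y j → (i = b ∧ j = c) ∨ i = j)
    (hK : ∀ i j, 1 - h * (Y i / Y j) ≠ 0) (e : ι → ℤ) (d r ν : Fin v → ℤ) (I : Finset ι) :
    (1 - h * (Y b / Y c)) * vecB h Y e d r ν I ∈ reg K ψ ∧
      (¬ (b ∈ I ∧ c ∉ I ∧ e b ≤ e c) → vecB h Y e d r ν I ∈ reg K ψ) := by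
  have hq : ∀ i j, Y i / Y j ∈ reg K ψ := fun i j => ((hY i).div (hY j) (hy0 j)).mem
  have hP : ∀ i j, 1 - Y i / Y j ∈ reg K ψ := fun i j => sub_mem (one_mem _) (hq i j)
  have hH : ∀ i j, 1 - h * (Y i / Y j) ∈ reg K ψ := fun i j =>
    sub_mem (one_mem _) (mul_mem hh.mem (hq i j))
  have hHi : ∀ i j, i ≠ j → ¬ (i = b ∧ j = c) → (1 - h * (Y i / Y j))⁻¹ ∈ reg K ψ := by
    intro i j hij hn
    refine ((Val.one.sub (hh.mul ((hY i).div (hY j) (hy0 j)))).inv ?_).mem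
    refine one_sub_mul_div_ne (hy0 j) fun h1 => ?_
    rcases hhy i j h1 with h2 | h2
    · exact hn h2
    · exact hij h2
  have hA : ∀ σ : Fin v ↪ ι, (∏ a, Y (σ a) ^ ν a) *
        (∏ a, ∏ a', if Above d r a a' then 1 - Y (σ a') / Y (σ a) else 1) *
        (∏ a, ∏ j, if e j ≤ d a ∧ j ≠ σ a then 1 - Y j / Y (σ a) else 1)⁻¹ *
        (∏ a, ∏ a', if d a ≤ d a' ∧ ¬ d a ≤ e (σ a') then 1 - h * (Y (σ a) / Y (σ a')) else 1)
        ∈ reg K ψ := by
    intro σ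
    refine mul_mem (mul_mem (mul_mem ?_ ?_) ?_) ?_
    · exact prod_mem fun a _ => ((hY _).zpow (hy0 _) _).mem
    · refine prod_mem fun a _ => prod_mem fun a' _ => ?_
      split_ifs
      · exact hP _ _
      · exact one_mem _
    · rw [← prod_inv_distrib]
      refine prod_mem fun a _ => ?_
      rw [← prod_inv_distrib]
      refine prod_mem fun j _ => ?_
      split_ifs with h1
      · exact ((Val.one.sub ((hY _).div (hY _) (hy0 _))).inv
          (one_sub_div_ne (hy0 _) (hy _ _ h1.2))).mem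
      · simp
    · refine prod_mem fun a _ => prod_mem fun a' _ => ?_
      split_ifs
      · exact hH _ _
      · exact one_mem _
  have hne : ∀ (σ : Fin v ↪ ι) (p : Fin v × ι), p ∈ univ ×ˢ (univ.map σ)ᶜ → σ p.1 ≠ p.2 := by
    intro σ p hp h1
    rw [mem_product, mem_compl] at hp
    exact hp.2 (h1 ▸ mem_map_of_mem σ (mem_univ _))
  have h2 : ¬ (b ∈ I ∧ c ∉ I ∧ e b ≤ e c) → vecB h Y e d r ν I ∈ reg K ψ := by
    intro hn
    refine sum_mem fun σ hσ => ?_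
    have hI : univ.map σ = I := (mem_filter.1 hσ).2
    by_cases hadm : ∀ a, e (σ a) ≤ d a
    · rw [TB_eq_H h Y e d r ν σ hK hadm]
      refine mul_mem (hA σ) (prod_mem fun p hp => ?_)
      split_ifs with h1
      · refine hHi _ _ (hne σ p hp) fun h3 => hn ⟨?_, ?_, ?_⟩
        · rw [← hI, ← h3.1]; exact mem_map_of_mem σ (mem_univ _)
        · rw [← hI, ← h3.2]; exact mem_compl.1 (mem_product.1 hp).2
        · rw [← h3.1, ← h3.2]; exact (hadm _).trans h1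
      · exact one_mem _
    · unfold TB; rw [if_neg hadm]; exact zero_mem _
  refine ⟨?_, h2⟩
  by_cases hb : b ∈ I
  swap
  · exact mul_mem (hH _ _) (h2 fun h3 => hb h3.1)
  unfold vecB
  rw [mul_sum]
  refine sum_mem fun σ hσ => ?_
  have hI : univ.map σ = I := (mem_filter.1 hσ).2
  obtain ⟨a₀, -, ha₀⟩ := mem_map.1 (hI ▸ hb)
  by_cases hadm : ∀ a, e (σ a) ≤ d a
  · rw [TB_eq_H h Y e d r ν σ hK hadm, mul_left_comm]
    refine mul_mem (hA σ) (mul_prod_mem _ _ _ _ (a₀, c) (hH _ _) ?_ fun p hp hp' => ?_)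
    · split_ifs
      · rw [ha₀, mul_inv_cancel₀ (hK _ _)]; exact one_mem _
      · simpa using hH b c
    · split_ifs with h1
      · refine hHi _ _ (hne σ p hp) fun h3 => hp' ?_
        exact Prod.ext (σ.injective (h3.1.trans ha₀.symm)) h3.2
      · exact one_mem _
  · unfold TB; rw [if_neg hadm, mul_zero]; exact zero_mem _

end Pool.Agent.MP_8be872_ag.H20
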