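import Pool.Agent.MP_8be872_ag.H20.LocalH

/-! Residues of the vectors along the divisors `Y b = Y c`. -/

namespace Pool.Agent.MP_8be872_ag.H20

open Finset H56

variable {R K F : Type} [CommRing R] [Field K] [Algebra R K] [IsFractionRing R K] [Field F]
variable {ι : Type} [Fintype ι] [DecidableEq ι] {v : ℕ} [DecidableEq F]

/-- The part of a term that stays regular and nonsingular when `Y` takes the values `y`. -/
noncomputable def Greg {L : Type} [Field L] (h : L) (Y : ι → L) (y : ι → F) (e : ι → ℤ)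
    (d r ν : Fin v → ℤ) (X : Fin v → L) (x : Fin v → F) : L :=
  (∏ a, X a ^ ν a) *
    (∏ a, ∏ a', (if Above d r a a' ∧ x a' ≠ x a then 1 - X a' / X a else 1) *
      (if d a ≤ d a' then 1 - h * (X a / X a') else 1)) /
    ∏ a, ∏ j, (if e j ≤ d a ∧ y j ≠ x a then 1 - Y j / X a else 1) *
      (if d a ≤ e j then 1 - h * (X a / Y j) else 1)

/-- The singular part of a term. -/
noncomputable def Vsing (Y : ι → K) (y : ι → F) (e : ι → ℤ) (d r : Fin v → ℤ)
    (σ : Fin v ↪ ι) : K :=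
  (∏ a, ∏ a', if Above d r a a' ∧ y (σ a') = y (σ a) then 1 - Y (σ a') / Y (σ a) else 1) /
    ∏ a, ∏ j, if e j ≤ d a ∧ j ≠ σ a ∧ y j = y (σ a) then 1 - Y j / Y (σ a) else 1

theorem TB_eq_P (h : K) (Y : ι → K) (y : ι → F) (e : ι → ℤ) (d r ν : Fin v → ℤ)
    (σ : Fin v ↪ ι) :
    TB h Y e d r ν σ = Greg h Y y e d r ν (fun a => Y (σ a)) (fun a => y (σ a)) *
      if ∀ a, e (σ a) ≤ d a then Vsing Y y e d r σ else 0 := by
  unfold TB
  split_ifs with hadm
  swap
  · simp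
  unfold Greg Vsing numB denR
  rw [div_mul_div_comm, mul_assoc]
  refine congrArg₂ (· / ·) (congrArg _ ?_) ?_
  · rw [← prod_mul_distrib]
    refine prod_congr rfl fun a _ => ?_
    rw [← prod_mul_distrib]
    refine prod_congr rfl fun a' _ => ?_
    by_cases h1 : Above d r a a' <;> by_cases h2 : y (σ a') = y (σ a) <;> simp [h1, h2, mul_comm]
  · rw [← prod_mul_distrib]
    refine prod_congr rfl fun a _ => ?_
    rw [← prod_mul_distrib]
    refine prod_congr rfl fun j _ => ?_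
    by_cases h1 : e j ≤ d a <;> by_cases h3 : j = σ a
    · simp [h3]
    · by_cases h2 : y j = y (σ a) <;> simp [h1, h2, h3, mul_comm]
    · simp [h3]
    · simp [h1]

theorem val_Greg {φ : R →+* F} {h : K} {h' : F} {Y : ι → K} {y : ι → F} (hh : Val φ h h')
    (hY : ∀ i, Val φ (Y i) (y i)) (hy0 : ∀ i, y i ≠ 0)
    (hhy : ∀ i j, h' * y i ≠ y j) (e : ι → ℤ) (d r ν : Fin v → ℤ) (σ : Fin v ↪ ι) :
    Val φ (Greg h Y y e d r ν (fun a => Y (σ a)) (fun a => y (σ a)))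
      (Greg h' y y e d r ν (fun a => y (σ a)) (fun a => y (σ a))) := by
  unfold Greg
  refine Val.div (Val.mul (Val.prod _ fun a _ => (hY _).zpow (hy0 _) _) ?_) ?_ ?_
  · refine Val.prod _ fun a _ => Val.prod _ fun a' _ => Val.mul ?_ ?_
    · exact Val.ite _ (fun _ => Val.one.sub ((hY _).div (hY _) (hy0 _))) fun _ => Val.one
    · exact Val.ite _ (fun _ => Val.one.sub (hh.mul ((hY _).div (hY _) (hy0 _))))
        fun _ => Val.one
  · refine Val.prod _ fun a _ => Val.prod _ fun j _ => Val.mul ?_ ?_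
    · exact Val.ite _ (fun _ => Val.one.sub ((hY _).div (hY _) (hy0 _))) fun _ => Val.one
    · exact Val.ite _ (fun _ => Val.one.sub (hh.mul ((hY _).div (hY _) (hy0 _))))
        fun _ => Val.one
  · refine prod_ne_zero_iff.2 fun a _ => prod_ne_zero_iff.2 fun j _ => mul_ne_zero ?_ ?_
    · split_ifs with h1
      · exact one_sub_div_ne (hy0 _) h1.2
      · exact one_ne_zero
    · split_ifs with h1
      · exact one_sub_mul_div_ne (hy0 _) (hhy _ _)
      · exact one_ne_zero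

theorem hy_symm {y : ι → F} {b c : ι}
    (hy : ∀ i j, y i = y j → i = j ∨ (i = b ∧ j = c) ∨ (i = c ∧ j = b)) :
    ∀ i j, y i = y j → i = j ∨ (i = c ∧ j = b) ∨ (i = b ∧ j = c) :=
  fun i j h => (hy i j h).imp_right Or.symm

theorem above_ne {d r : Fin v → ℤ} {a a' : Fin v} (h : Above d r a a') : a ≠ a' := by
  rintro rfl
  unfold Above at h
  omega

section
variable {Y : ι → K} {y : ι → F} {e : ι → ℤ} {d r : Fin v → ℤ} {σ : Fin v ↪ ι} {b c : ι}

theorem Vsing_none (hy : ∀ i j, y i = y j → i = j ∨ (i = b ∧ j = c) ∨ (i = c ∧ j = b))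
    (hb : ∀ a, σ a ≠ b) (hc : ∀ a, σ a ≠ c) : Vsing Y y e d r σ = 1 := by
  unfold Vsing
  rw [prod_eq_one, prod_eq_one, div_one]
  · intro a _
    refine prod_eq_one fun j _ => if_neg fun h => ?_
    rcases hy _ _ h.2.2 with h1 | h1 | h1
    · exact h.2.1 h1
    · exact hc _ h1.2
    · exact hb _ h1.2
  · intro a _
    refine prod_eq_one fun a' _ => if_neg fun h => ?_
    rcases hy _ _ h.2 with h1 | h1 | h1
    · exact above_ne h.1 (σ.injective h1).symm
    · exact hc _ h1.2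
    · exact hb _ h1.2

theorem Vsing_one (hbc : b ≠ c) (hyb : y c = y b)
    (hy : ∀ i j, y i = y j → i = j ∨ (i = b ∧ j = c) ∨ (i = c ∧ j = b))
    {a₀ : Fin v} (hb : σ a₀ = b) (hc : ∀ a, σ a ≠ c) :
    Vsing Y y e d r σ = if e c ≤ d a₀ then (1 - Y c / Y b)⁻¹ else 1 := by
  unfold Vsing
  rw [prod_eq_one, prod_eq_single a₀, prod_eq_single c]
  · by_cases h1 : e c ≤ d a₀ <;> simp [h1, hb, hbc.symm, hyb]
  · intro j _ hj
    refine if_neg fun h => ?_
    rcases hy _ _ h.2.2 with h1 | h1 | h1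
    · exact h.2.1 h1
    · exact hc _ h1.2
    · exact hj h1.1
  · simp
  · intro a _ ha
    refine prod_eq_one fun j _ => if_neg fun h => ?_
    rcases hy _ _ h.2.2 with h1 | h1 | h1
    · exact h.2.1 h1
    · exact hc _ h1.2
    · exact ha (σ.injective (h1.2.trans hb.symm))
  · simp
  · intro a _
    refine prod_eq_one fun a' _ => if_neg fun h => ?_
    rcases hy _ _ h.2 with h1 | h1 | h1
    · exact above_ne h.1 (σ.injective h1).symm
    · exact hc _ h1.2
    · exact hc _ h1.1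

theorem Vsing_two (hbc : b ≠ c) (hyb : y c = y b)
    (hy : ∀ i j, y i = y j → i = j ∨ (i = b ∧ j = c) ∨ (i = c ∧ j = b))
    (hK : 1 - Y c / Y b ≠ 0) {a₀ a₁ : Fin v} (hb : σ a₀ = b) (hc : σ a₁ = c)
    (hab : Above d r a₀ a₁) (he : e c ≤ d a₁) :
    Vsing Y y e d r σ = if e b ≤ d a₁ then (1 - Y b / Y c)⁻¹ else 1 := by
  have h01 : a₀ ≠ a₁ := above_ne hab
  have hba : ¬ Above d r a₁ a₀ := by unfold Above at hab ⊢; omega
  have he0 : e c ≤ d a₀ := by unfold Above at hab; omega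
  unfold Vsing
  rw [prod_eq_single a₀, prod_eq_single a₁, prod_eq_mul a₀ a₁ h01, prod_eq_single c,
    prod_eq_single b]
  · by_cases h1 : e b ≤ d a₁
    · simp only [hab, hb, hc, hyb, he0, h1, hbc, hbc.symm, ne_eq, not_false_eq_true, and_self,
        if_true]
      field_simp
    · simp only [hab, hb, hc, hyb, he0, h1, hbc.symm, ne_eq, not_false_eq_true, and_self,
        if_true, false_and, if_false]
      field_simp
  · intro j _ hj
    refine if_neg fun h => ?_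
    rcases hy _ _ h.2.2 with h1 | h1 | h1
    · exact h.2.1 h1
    · exact hj h1.1
    · exact hbc (h1.2.symm.trans hc)
  · simp
  · intro j _ hj
    refine if_neg fun h => ?_
    rcases hy _ _ h.2.2 with h1 | h1 | h1
    · exact h.2.1 h1
    · exact hbc (hb.symm.trans h1.2)
    · exact hj h1.1
  · simp
  · intro a _ ha
    refine prod_eq_one fun j _ => if_neg fun h => ?_
    rcases hy _ _ h.2.2 with h1 | h1 | h1
    · exact h.2.1 h1
    · exact ha.2 (σ.injective (h1.2.trans hc.symm))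
    · exact ha.1 (σ.injective (h1.2.trans hb.symm))
  · simp
  · simp
  · intro a' _ ha'
    refine if_neg fun h => ?_
    rcases hy _ _ h.2 with h1 | h1 | h1
    · exact above_ne h.1 (σ.injective h1).symm
    · exact hbc (hb.symm.trans h1.2)
    · exact ha' (σ.injective (h1.1.trans hc.symm))
  · simp
  · intro a _ ha
    refine prod_eq_one fun a' _ => if_neg fun h => ?_
    rcases hy _ _ h.2 with h1 | h1 | h1
    · exact above_ne h.1 (σ.injective h1).symm
    · have h2 : a = a₁ := σ.injective (h1.2.trans hc.symm)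
      have h3 : a' = a₀ := σ.injective (h1.1.trans hb.symm)
      exact hba (h2 ▸ h3 ▸ h.1)
    · exact ha (σ.injective (h1.2.trans hb.symm))
  · simp

end

/-- Composition with the transposition of `b` and `c`. -/
def sw (b c : ι) (σ : Fin v ↪ ι) : Fin v ↪ ι := σ.trans (Equiv.swap b c).toEmbedding

theorem sw_apply (b c : ι) (σ : Fin v ↪ ι) (a : Fin v) : sw b c σ a = Equiv.swap b c (σ a) := rfl

theorem sw_comm (b c : ι) (σ : Fin v ↪ ι) : sw b c σ = sw c b σ := by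
  unfold sw; rw [Equiv.swap_comm]

theorem sw_sw (b c : ι) (σ : Fin v ↪ ι) : sw b c (sw b c σ) = σ := by
  ext a; simp [sw_apply]

section
variable {Y : ι → K} {y : ι → F} {e : ι → ℤ} {d r : Fin v → ℤ} {σ : Fin v ↪ ι} {b c : ι}

theorem pair_one (hbc : b ≠ c) (hyb : y c = y b)
    (hy : ∀ i j, y i = y j → i = j ∨ (i = b ∧ j = c) ∨ (i = c ∧ j = b))
    {a₀ : Fin v} (hb : σ a₀ = b) (hc : ∀ a, σ a ≠ c) (hadm : ∀ a, e (σ a) ≤ d a) :
    ((∀ a, e (sw b c σ a) ≤ d a) → Vsing Y y e d r σ = (1 - Y c / Y b)⁻¹ ∧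
      Vsing Y y e d r (sw b c σ) = (1 - Y b / Y c)⁻¹) ∧
    ((¬ ∀ a, e (sw b c σ a) ≤ d a) → Vsing Y y e d r σ = 1) := by
  have h1 : sw b c σ a₀ = c := by simp [sw_apply, hb]
  have h2 : ∀ a, sw b c σ a ≠ b := by
    intro a h
    rw [sw_apply, Equiv.swap_apply_eq_iff, Equiv.swap_apply_left] at h
    exact hc a h
  constructor
  · intro hs
    rw [Vsing_one hbc hyb hy hb hc, Vsing_one hbc.symm hyb.symm (hy_symm hy) h1 h2,
      if_pos (h1 ▸ hs a₀), if_pos (hb ▸ hadm a₀)]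
    exact ⟨rfl, rfl⟩
  · intro hs
    rw [Vsing_one hbc hyb hy hb hc, if_neg]
    refine fun h => hs fun a => ?_
    by_cases ha : a = a₀
    · rw [ha, h1]; exact h
    · rw [sw_apply, Equiv.swap_apply_of_ne_of_ne (fun h3 => ha (σ.injective (h3.trans hb.symm)))
        (hc a)]
      exact hadm a

theorem pair_two (hbc : b ≠ c) (hyb : y c = y b)
    (hy : ∀ i j, y i = y j → i = j ∨ (i = b ∧ j = c) ∨ (i = c ∧ j = b))
    (hK : 1 - Y c / Y b ≠ 0) (hK' : 1 - Y b / Y c ≠ 0) {a₀ a₁ : Fin v} (hb : σ a₀ = b)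
    (hc : σ a₁ = c) (hab : Above d r a₀ a₁) (hadm : ∀ a, e (σ a) ≤ d a) :
    ((∀ a, e (sw b c σ a) ≤ d a) → Vsing Y y e d r σ = (1 - Y b / Y c)⁻¹ ∧
      Vsing Y y e d r (sw b c σ) = (1 - Y c / Y b)⁻¹) ∧
    ((¬ ∀ a, e (sw b c σ a) ≤ d a) → Vsing Y y e d r σ = 1) := by
  have h1 : sw b c σ a₀ = c := by simp [sw_apply, hb]
  have h2 : sw b c σ a₁ = b := by simp [sw_apply, hc]
  have he : e c ≤ d a₁ := hc ▸ hadm a₁
  constructor
  · intro hs
    have he' : e b ≤ d a₁ := h2 ▸ hs a₁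
    rw [Vsing_two hbc hyb hy hK hb hc hab he,
      Vsing_two hbc.symm hyb.symm (hy_symm hy) hK' h1 h2 hab he', if_pos he', if_pos he]
    exact ⟨rfl, rfl⟩
  · intro hs
    rw [Vsing_two hbc hyb hy hK hb hc hab he, if_neg]
    refine fun h => hs fun a => ?_
    by_cases ha : a = a₀
    · rw [ha, h1]; unfold Above at hab; omega
    by_cases ha' : a = a₁
    · rw [ha', h2]; exact h
    · rw [sw_apply, Equiv.swap_apply_of_ne_of_ne (fun h3 => ha (σ.injective (h3.trans hb.symm)))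
        (fun h3 => ha' (σ.injective (h3.trans hc.symm)))]
      exact hadm a

theorem pair_all (hbc : b ≠ c) (hyb : y c = y b)
    (hy : ∀ i j, y i = y j → i = j ∨ (i = b ∧ j = c) ∨ (i = c ∧ j = b))
    (hK : 1 - Y c / Y b ≠ 0) (hK' : 1 - Y b / Y c ≠ 0) (hr : Function.Injective r)
    (hadm : ∀ a, e (σ a) ≤ d a) :
    ((∀ a, e (sw b c σ a) ≤ d a) →
      (Vsing Y y e d r σ = 1 ∧ Vsing Y y e d r (sw b c σ) = 1) ∨
      (Vsing Y y e d r σ = (1 - Y c / Y b)⁻¹ ∧ Vsing Y y e d r (sw b c σ) = (1 - Y b / Y c)⁻¹) ∨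
      (Vsing Y y e d r σ = (1 - Y b / Y c)⁻¹ ∧ Vsing Y y e d r (sw b c σ) = (1 - Y c / Y b)⁻¹)) ∧
    ((¬ ∀ a, e (sw b c σ a) ≤ d a) → Vsing Y y e d r σ = 1) := by
  have hy' := hy_symm hy
  by_cases hb : ∃ a, σ a = b <;> by_cases hc : ∃ a, σ a = c
  · obtain ⟨a₀, hb⟩ := hb
    obtain ⟨a₁, hc⟩ := hc
    have h01 : r a₀ ≠ r a₁ := fun h => hbc (hb.symm.trans ((congrArg σ (hr h)).trans hc))
    by_cases hab : Above d r a₀ a₁
    · have := pair_two (Y := Y) hbc hyb hy hK hK' hb hc hab hadm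
      exact ⟨fun h => Or.inr (Or.inr (this.1 h)), this.2⟩
    · have hba : Above d r a₁ a₀ := by unfold Above at hab ⊢; omega
      have := pair_two (Y := Y) hbc.symm hyb.symm hy' hK' hK hc hb hba hadm
      rw [sw_comm c b] at this
      exact ⟨fun h => Or.inr (Or.inl (this.1 h)), this.2⟩
  · obtain ⟨a₀, hb⟩ := hb
    have := pair_one (Y := Y) (r := r) hbc hyb hy hb (fun a h => hc ⟨a, h⟩) hadm
    exact ⟨fun h => Or.inr (Or.inl (this.1 h)), this.2⟩
  · obtain ⟨a₁, hc⟩ := hc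
    have := pair_one (Y := Y) (r := r) hbc.symm hyb.symm hy' hc (fun a h => hb ⟨a, h⟩) hadm
    rw [sw_comm c b] at this
    exact ⟨fun h => Or.inr (Or.inr (this.1 h)), this.2⟩
  · have h1 : sw b c σ = σ := by
      ext a
      rw [sw_apply, Equiv.swap_apply_of_ne_of_ne (fun h => hb ⟨a, h⟩) fun h => hc ⟨a, h⟩]
    have h2 : Vsing Y y e d r σ = 1 :=
      Vsing_none hy (fun a h => hb ⟨a, h⟩) fun a h => hc ⟨a, h⟩
    rw [h1]
    exact ⟨fun _ => Or.inl ⟨h2, h2⟩, fun _ => h2⟩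

end

theorem local_P {φ : R →+* F} {h : K} {h' : F} {Y : ι → K} {y : ι → F} (hh : Val φ h h')
    (hY : ∀ i, Val φ (Y i) (y i)) (hy0 : ∀ i, y i ≠ 0) {b c : ι} (hbc : b ≠ c) (hyb : y c = y b)
    (hy : ∀ i j, y i = y j → i = j ∨ (i = b ∧ j = c) ∨ (i = c ∧ j = b))
    (hhy : ∀ i j, h' * y i ≠ y j) (hY0 : ∀ i, Y i ≠ 0) (hK : Y c ≠ Y b) (e : ι → ℤ)
    (d r ν : Fin v → ℤ) (hr : Function.Injective r) (I : Finset ι) :
    (1 - Y c / Y b) * vecB h Y e d r ν I ∈ reg K φ ∧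
      Val φ ((1 - Y c / Y b) *
        (vecB h Y e d r ν I + vecB h Y e d r ν (I.map (Equiv.swap b c).toEmbedding))) 0 := by
  have hK1 : 1 - Y c / Y b ≠ 0 := one_sub_div_ne (hY0 _) hK
  have hK2 : 1 - Y b / Y c ≠ 0 := one_sub_div_ne (hY0 _) hK.symm
  have hq : Val φ (Y c / Y b) 1 := by
    have := (hY c).div (hY b) (hy0 b)
    rwa [hyb, div_self (hy0 b)] at this
  have v0 : Val φ ((1 - Y c / Y b) * 0) 0 := by simpa using Val.zero
  have v1 : Val φ ((1 - Y c / Y b) * 1) 0 := by simpa using Val.one.sub hq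
  have v2 : Val φ ((1 - Y c / Y b) * (1 - Y c / Y b)⁻¹) 1 := by
    rw [mul_inv_cancel₀ hK1]; exact Val.one
  have v3 : Val φ ((1 - Y c / Y b) * (1 - Y b / Y c)⁻¹) (-1) := by
    have : (1 - Y c / Y b) * (1 - Y b / Y c)⁻¹ = -(Y c / Y b) := by
      rw [mul_inv_eq_iff_eq_mul₀ hK2]
      have := hY0 b
      have := hY0 c
      field_simp
      ring
    rw [this]; exact hq.neg
  have key : ∀ σ : Fin v ↪ ι, ∃ w₁ w₂ : F,
      Val φ ((1 - Y c / Y b) * if ∀ a, e (σ a) ≤ d a then Vsing Y y e d r σ else 0) w₁ ∧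
      Val φ ((1 - Y c / Y b) *
        if ∀ a, e (sw b c σ a) ≤ d a then Vsing Y y e d r (sw b c σ) else 0) w₂ ∧
      w₁ + w₂ = 0 := by
    intro σ
    by_cases h1 : ∀ a, e (σ a) ≤ d a <;> by_cases h2 : ∀ a, e (sw b c σ a) ≤ d a
    · rw [if_pos h1, if_pos h2]
      rcases (pair_all hbc hyb hy hK1 hK2 hr h1).1 h2 with h3 | h3 | h3 <;> rw [h3.1, h3.2]
      · exact ⟨0, 0, v1, v1, by simp⟩
      · exact ⟨1, -1, v2, v3, by simp⟩
      · exact ⟨-1, 1, v3, v2, by simp⟩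
    · rw [if_pos h1, if_neg h2, (pair_all hbc hyb hy hK1 hK2 hr h1).2 h2]
      exact ⟨0, 0, v1, v0, by simp⟩
    · rw [if_neg h1, if_pos h2, (pair_all hbc hyb hy hK1 hK2 hr h2).2 (by rwa [sw_sw])]
      exact ⟨0, 0, v0, v1, by simp⟩
    · rw [if_neg h1, if_neg h2]
      exact ⟨0, 0, v0, v0, by simp⟩
  have hys : ∀ σ : Fin v ↪ ι, (fun a => y (sw b c σ a)) = fun a => y (σ a) := by
    intro σ
    funext a
    rw [sw_apply, Equiv.swap_apply_def]
    split_ifs with h1 h2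
    · rw [h1, hyb]
    · rw [h2, hyb]
    · rfl
  have key2 : ∀ σ : Fin v ↪ ι, (1 - Y c / Y b) * TB h Y e d r ν σ ∈ reg K φ ∧
      Val φ ((1 - Y c / Y b) * (TB h Y e d r ν σ + TB h Y e d r ν (sw b c σ))) 0 := by
    intro σ
    obtain ⟨w₁, w₂, h1, h2, h3⟩ := key σ
    have g1 := (val_Greg hh hY hy0 hhy e d r ν σ).mul h1
    have g2 := (val_Greg hh hY hy0 hhy e d r ν (sw b c σ)).mul h2
    rw [mul_left_comm, ← TB_eq_P] at g1 g2
    refine ⟨g1.mem, ?_⟩
    have g3 := g1.add g2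
    rwa [hys, ← mul_add, ← mul_add, h3, mul_zero] at g3
  constructor
  · unfold vecB
    rw [mul_sum]
    exact sum_mem fun σ _ => (key2 σ).1
  · have h1 : vecB h Y e d r ν (I.map (Equiv.swap b c).toEmbedding) =
        ∑ σ : Fin v ↪ ι with univ.map σ = I, TB h Y e d r ν (sw b c σ) := by
      unfold vecB
      symm
      refine sum_bij' (fun σ _ => sw b c σ) (fun σ _ => sw b c σ) ?_ ?_ ?_ ?_ ?_
      · intro σ hσ
        rw [mem_filter] at hσ ⊢
        exact ⟨mem_univ _, by rw [← hσ.2, map_map]; rfl⟩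
      · intro σ hσ
        rw [mem_filter] at hσ ⊢
        refine ⟨mem_univ _, ?_⟩
        unfold sw
        rw [← map_map, hσ.2, map_map]
        ext i
        simp
      · intro σ _; exact sw_sw b c σ
      · intro σ _; exact sw_sw b c σ
      · intro σ _; rfl
    rw [h1]
    unfold vecB
    rw [← sum_add_distrib, mul_sum]
    simpa using Val.sum _ fun σ _ => (key2 σ).2

end Pool.Agent.MP_8be872_ag.H20
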