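import Pool.Agent.MP_8be872_ag.H20.LocalP

/-! The module cut out by the pole conditions. -/

namespace Pool.Agent.MP_8be872_ag.H20

open Finset H56

variable {R K : Type} [CommRing R] [Field K] [Algebra R K] [IsFractionRing R K]
variable {ι : Type} [Fintype ι] [DecidableEq ι]

/-- `1 - Y c / Y b`. -/
def pR (Y : ι → Rˣ) (b c : ι) : R := 1 - ((Y c * (Y b)⁻¹ : Rˣ) : R)

/-- `1 - h * Y b / Y c`. -/
def hR (h : Rˣ) (Y : ι → Rˣ) (b c : ι) : R := 1 - ((h * Y b * (Y c)⁻¹ : Rˣ) : R)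

/-- The image of a family of units. -/
def im {L : Type} [Field L] (φ : R →+* L) (Y : ι → Rˣ) (i : ι) : L := φ (Y i)

omit [Fintype ι] [DecidableEq ι] in
theorem im_ne {L : Type} [Field L] (φ : R →+* L) (Y : ι → Rˣ) (i : ι) : im φ Y i ≠ 0 :=
  ((Y i).isUnit.map φ).ne_zero

omit [Fintype ι] [DecidableEq ι] in
theorem im_inv {L : Type} [Field L] (φ : R →+* L) (Y : ι → Rˣ) (i : ι) :
    im φ Y⁻¹ i = (im φ Y i)⁻¹ := by
  simp [im]

theorem map_unit_zpow {L : Type} [Field L] (φ : R →+* L) (u : Rˣ) (n : ℤ) :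
    φ (u ^ n : Rˣ) = φ u ^ n :=
  map_zpow (φ.toMonoidHom.comp (Units.coeHom R)) u n

omit [Fintype ι] [DecidableEq ι] in
theorem map_pR {L : Type} [Field L] (φ : R →+* L) (Y : ι → Rˣ) (b c : ι) :
    φ (pR Y b c) = 1 - im φ Y c / im φ Y b := by
  simp [pR, im, div_eq_mul_inv]

omit [Fintype ι] [DecidableEq ι] in
theorem map_hR {L : Type} [Field L] (φ : R →+* L) (h : Rˣ) (Y : ι → Rˣ) (b c : ι) :
    φ (hR h Y b c) = 1 - φ h * (im φ Y b / im φ Y c) := by
  simp [hR, im, div_eq_mul_inv, mul_assoc]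

omit [Fintype ι] [DecidableEq ι] in
theorem pR_inv (Y : ι → Rˣ) (b c : ι) : pR Y⁻¹ b c = pR Y c b := by
  simp [pR, mul_comm]

omit [Fintype ι] [DecidableEq ι] in
theorem hR_inv (h : Rˣ) (Y : ι → Rˣ) (b c : ι) : hR h Y⁻¹ b c = hR h Y c b := by
  unfold hR
  congr 2
  simp only [Pi.inv_apply, inv_inv]
  ac_rfl

omit [Fintype ι] [DecidableEq ι] in
theorem pR_dvd (Y : ι → Rˣ) (b c : ι) : pR Y b c ∣ pR Y c b := by
  refine ⟨-((Y b * (Y c)⁻¹ : Rˣ) : R), ?_⟩
  have : ((Y c * (Y b)⁻¹ : Rˣ) : R) * ((Y b * (Y c)⁻¹ : Rˣ) : R) = 1 := by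
    rw [← Units.val_mul]
    have : Y c * (Y b)⁻¹ * (Y b * (Y c)⁻¹) = 1 := by group
    rw [this, Units.val_one]
  unfold pR
  linear_combination -this

/-- Genericity: the divisors are prime, with evaluation maps `φ` and `ψ`. -/
structure Gen (h : Rˣ) (Y : ι → Rˣ) (φ ψ : ι → ι → R →+* K) : Prop where
  p0 : ∀ b c, b ≠ c → pR Y b c ≠ 0
  h0 : ∀ b c, hR h Y b c ≠ 0
  pker : ∀ b c, b ≠ c → ∀ a, φ b c a = 0 ↔ pR Y b c ∣ a
  hker : ∀ b c a, ψ b c a = 0 ↔ hR h Y b c ∣ a
  pY : ∀ b c, b ≠ c → ∀ i j, im (φ b c) Y i = im (φ b c) Y j →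
    i = j ∨ (i = b ∧ j = c) ∨ (i = c ∧ j = b)
  ph : ∀ b c, b ≠ c → ∀ i j, φ b c h * im (φ b c) Y i ≠ im (φ b c) Y j
  hY : ∀ b c i j, i ≠ j → im (ψ b c) Y i ≠ im (ψ b c) Y j
  hh : ∀ b c i j, ψ b c h * im (ψ b c) Y i = im (ψ b c) Y j → (i = b ∧ j = c) ∨ i = j

omit [Fintype ι] [DecidableEq ι] [Algebra R K] [IsFractionRing R K] in
theorem Gen.dual {h : Rˣ} {Y : ι → Rˣ} {φ ψ : ι → ι → R →+* K} (G : Gen h Y φ ψ) :
    Gen h Y⁻¹ (fun b c => φ c b) (fun b c => ψ c b) where
  p0 b c hbc := by rw [pR_inv]; exact G.p0 c b hbc.symm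
  h0 b c := by rw [hR_inv]; exact G.h0 c b
  pker b c hbc a := by rw [pR_inv]; exact G.pker c b hbc.symm a
  hker b c a := by rw [hR_inv]; exact G.hker c b a
  pY b c hbc i j hij := by
    rw [im_inv, im_inv, inv_inj] at hij
    exact (G.pY c b hbc.symm i j hij).imp_right Or.symm
  ph b c hbc i j hij := by
    rw [im_inv, im_inv] at hij
    apply G.ph c b hbc.symm j i
    have h1 := im_ne (φ c b) Y i
    have h2 := im_ne (φ c b) Y j
    field_simp at hij
    exact hij
  hY b c i j hij h1 := by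
    rw [im_inv, im_inv, inv_inj] at h1
    exact G.hY c b i j hij h1
  hh b c i j hij := by
    rw [im_inv, im_inv] at hij
    have h1 := im_ne (ψ c b) Y i
    have h2 := im_ne (ψ c b) Y j
    field_simp at hij
    rcases G.hh c b j i hij with h3 | h3
    · exact Or.inl ⟨h3.2, h3.1⟩
    · exact Or.inr h3.symm

/-- The family of primes. -/
def primes (h : Rˣ) (Y : ι → Rˣ) : Set R :=
  {π | (∃ b c, b ≠ c ∧ π = pR Y b c) ∨ ∃ b c, π = hR h Y b c}

omit [Fintype ι] [DecidableEq ι] in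
theorem primes_inv (h : Rˣ) (Y : ι → Rˣ) : primes h Y⁻¹ = primes h Y := by
  ext π
  simp only [primes, pR_inv, hR_inv, Set.mem_ofPred_eq]
  constructor <;> rintro (⟨b, c, h1, h2⟩ | ⟨b, c, h2⟩)
  · exact Or.inl ⟨c, b, h1.symm, h2⟩
  · exact Or.inr ⟨c, b, h2⟩
  · exact Or.inl ⟨c, b, h1.symm, h2⟩
  · exact Or.inr ⟨c, b, h2⟩

/-- Fractions with denominators in the family of primes. -/
def loc (K : Type) [Field K] [Algebra R K] (h : Rˣ) (Y : ι → Rˣ) : Subalgebra R K :=
  Algebra.adjoin R ((fun π => (algebraMap R K π)⁻¹) '' primes h Y)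

/-- The pole conditions. -/
structure Cond (h : Rˣ) (Y : ι → Rˣ) (φ ψ : ι → ι → R →+* K) (e : ι → ℤ) (v : ℕ)
    (J : Finset ι → K) : Prop where
  card : ∀ I, I.card ≠ v → J I = 0
  inL : ∀ I, J I ∈ loc K h Y
  p1 : ∀ b c, b ≠ c → ∀ I, algebraMap R K (pR Y b c) * J I ∈ reg K (φ b c)
  p2 : ∀ b c, b ≠ c → ∀ I, J I + J (I.map (Equiv.swap b c).toEmbedding) ∈ reg K (φ b c)
  h1 : ∀ b c I, algebraMap R K (hR h Y b c) * J I ∈ reg K (ψ b c)
  h2 : ∀ b c I, ¬ (b ∈ I ∧ c ∉ I ∧ e b ≤ e c) → J I ∈ reg K (ψ b c)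

/-- The module of vectors with the pole conditions. -/
def HH (h : Rˣ) (Y : ι → Rˣ) (φ ψ : ι → ι → R →+* K) (e : ι → ℤ) (v : ℕ) :
    Submodule R (Finset ι → K) where
  carrier := {J | Cond h Y φ ψ e v J}
  zero_mem' :=
    { card := fun _ _ => rfl
      inL := fun _ => zero_mem _
      p1 := fun _ _ _ _ => by simp
      p2 := fun _ _ _ _ => by simp
      h1 := fun _ _ _ => by simp
      h2 := fun _ _ _ _ => zero_mem _ }
  add_mem' := fun {J J'} H H' =>
    { card := fun I hI => by simp [H.card I hI, H'.card I hI]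
      inL := fun I => add_mem (H.inL I) (H'.inL I)
      p1 := fun b c hbc I => by
        simpa [mul_add] using add_mem (H.p1 b c hbc I) (H'.p1 b c hbc I)
      p2 := fun b c hbc I => by
        have := add_mem (H.p2 b c hbc I) (H'.p2 b c hbc I)
        rwa [add_add_add_comm] at this
      h1 := fun b c I => by simpa [mul_add] using add_mem (H.h1 b c I) (H'.h1 b c I)
      h2 := fun b c I hn => add_mem (H.h2 b c I hn) (H'.h2 b c I hn) }
  smul_mem' := fun g J H =>
    { card := fun I hI => by simp [H.card I hI]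
      inL := fun I => Subalgebra.smul_mem _ (H.inL I) g
      p1 := fun b c hbc I => by
        simpa using Subalgebra.smul_mem _ (H.p1 b c hbc I) g
      p2 := fun b c hbc I => by
        simpa using Subalgebra.smul_mem _ (H.p2 b c hbc I) g
      h1 := fun b c I => by simpa using Subalgebra.smul_mem _ (H.h1 b c I) g
      h2 := fun b c I hn => Subalgebra.smul_mem _ (H.h2 b c I hn) g }

omit [IsFractionRing R K] in
theorem HH_dual {h : Rˣ} {Y : ι → Rˣ} {φ ψ : ι → ι → R →+* K} {e : ι → ℤ} {v v' : ℕ}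
    (hv : v + v' = Fintype.card ι) {J : Finset ι → K} (H : J ∈ HH h Y φ ψ e v) :
    (fun I => J Iᶜ) ∈ HH h Y⁻¹ (fun b c => φ c b) (fun b c => ψ c b) (fun b => -e b) v' :=
  { card := fun I hI => H.card _ (by rw [card_compl]; have := card_le_univ I; omega)
    inL := fun I => by unfold loc; rw [primes_inv]; exact H.inL _
    p1 := fun b c hbc I => by rw [pR_inv]; exact H.p1 c b hbc.symm _
    p2 := fun b c hbc I => by
      have h1 : (I.map (Equiv.swap b c).toEmbedding)ᶜ = Iᶜ.map (Equiv.swap c b).toEmbedding := by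
        ext i
        simp [Equiv.swap_comm]
      rw [h1]
      exact H.p2 c b hbc.symm _
    h1 := fun b c I => by rw [hR_inv]; exact H.h1 c b _
    h2 := fun b c I hn => H.h2 c b _ fun h1 => hn ⟨by simpa using h1.2.1, by simpa using h1.1,
      by have := h1.2.2; omega⟩ }

theorem vecB_mem {h : Rˣ} {Y : ι → Rˣ} {φ ψ : ι → ι → R →+* K} (G : Gen h Y φ ψ) (e : ι → ℤ)
    {v : ℕ} (d r ν : Fin v → ℤ) (hr : Function.Injective r) :
    vecB (algebraMap R K h) (im (algebraMap R K) Y) e d r ν ∈ HH h Y φ ψ e v := by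
  classical
  have inj := IsFractionRing.injective R K
  have hp : ∀ b c, b ≠ c → algebraMap R K (pR Y b c) ≠ 0 := fun b c hbc h0 =>
    G.p0 b c hbc (inj (by simpa using h0))
  have hh : ∀ b c, algebraMap R K (hR h Y b c) ≠ 0 := fun b c h0 =>
    G.h0 b c (inj (by simpa using h0))
  have hP := fun b c (hbc : b ≠ c) I => local_P (φ := φ b c) (Val.alg (K := K) (h : R))
    (Y := im (algebraMap R K) Y) (y := im (φ b c) Y) (fun i => Val.alg _) (im_ne _ _) hbc
    (by
      have h1 := (G.pker b c hbc _).2 dvd_rfl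
      rw [map_pR, sub_eq_zero, eq_comm, div_eq_one_iff_eq (im_ne _ _ _)] at h1
      exact h1)
    (G.pY b c hbc) (G.ph b c hbc) (im_ne _ _)
    (by
      intro h1
      apply hp b c hbc
      rw [map_pR, h1, div_self (im_ne _ _ _), sub_self]) e d r ν hr I
  have hH := fun b c I => local_H (ψ := ψ b c) (Val.alg (K := K) (h : R))
    (Y := im (algebraMap R K) Y) (y := im (ψ b c) Y) (fun i => Val.alg _) (im_ne _ _)
    (G.hY b c) b c (G.hh b c) (fun i j => by rw [← map_hR]; exact hh i j) e d r ν I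
  refine
    { card := fun I hI => ?_
      inL := fun I => ?_
      p1 := fun b c hbc I => by rw [map_pR]; exact (hP b c hbc I).1
      p2 := fun b c hbc I => reg_of_val_zero (G.p0 b c hbc) (fun a => (G.pker b c hbc a).1)
        (by rw [map_pR]; exact (hP b c hbc I).2)
      h1 := fun b c I => by rw [map_hR]; exact (hH b c I).1
      h2 := fun b c I hn => (hH b c I).2 hn }
  · refine sum_eq_zero fun σ hσ => absurd ?_ hI
    rw [← (mem_filter.1 hσ).2, card_map, card_univ, Fintype.card_fin]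
  · refine sum_mem fun σ _ => ?_
    unfold TB
    split_ifs
    swap
    · exact zero_mem _
    rw [div_eq_mul_inv]
    refine mul_mem (mul_mem (prod_mem fun a _ => ?_) ?_) ?_
    · have : im (algebraMap R K) Y (σ a) ^ ν a = algebraMap R K (Y (σ a) ^ ν a : Rˣ) :=
        (map_unit_zpow _ _ _).symm
      rw [this]
      exact Subalgebra.algebraMap_mem _ _
    · unfold numB
      refine prod_mem fun a _ => prod_mem fun a' _ => mul_mem ?_ ?_
      · split_ifs
        · rw [← map_pR]; exact Subalgebra.algebraMap_mem _ _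
        · exact one_mem _
      · split_ifs
        · rw [← map_hR]; exact Subalgebra.algebraMap_mem _ _
        · exact one_mem _
    · unfold denR
      rw [← prod_inv_distrib]
      refine prod_mem fun a _ => ?_
      rw [← prod_inv_distrib]
      refine prod_mem fun j _ => ?_
      rw [mul_inv]
      refine mul_mem ?_ ?_
      · split_ifs with h1
        · rw [← map_pR]
          exact Algebra.subset_adjoin ⟨_, Or.inl ⟨_, _, h1.2.symm, rfl⟩, rfl⟩
        · simp
      · split_ifs with h1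
        · rw [← map_hR]
          exact Algebra.subset_adjoin ⟨_, Or.inr ⟨_, _, rfl⟩, rfl⟩
        · simp

end Pool.Agent.MP_8be872_ag.H20
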