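import Pool.Agent.MP_8be872_ag.H20.Elim

/-! The universal Laurent ring and the span statement. -/

namespace Pool.Agent.MP_8be872_ag.H20

open Finset H56

section
variable {A : Type} [AddCommGroup A]

/-- Monomials as units of the group ring. -/
noncomputable def ex (g : A) : (AddMonoidAlgebra ℤ A)ˣ :=
  (AddMonoidAlgebra.of ℤ A).toHomUnits (Multiplicative.ofAdd g)

theorem ex_val (g : A) : (ex g : AddMonoidAlgebra ℤ A) = AddMonoidAlgebra.single g 1 := rfl

theorem ex_add (g g' : A) : ex (g + g') = ex g * ex g' := by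
  unfold ex; rw [ofAdd_add, map_mul]

theorem ex_neg (g : A) : ex (-g) = (ex g)⁻¹ := by
  unfold ex; rw [ofAdd_neg, map_inv]

theorem ex_zsmul (n : ℤ) (g : A) : ex (n • g) = ex g ^ n := by
  unfold ex; rw [ofAdd_zsmul, map_zpow]

theorem ex_zero : ex (0 : A) = 1 := by
  unfold ex; rw [ofAdd_zero, map_one]

theorem ex_inj {g g' : A} (h : (ex g : AddMonoidAlgebra ℤ A) = ex g') : g = g' :=
  AddMonoidAlgebra.single_left_injective one_ne_zero h

theorem one_sub_dvd_zpow {R : Type} [CommRing R] (u : Rˣ) (n : ℤ) :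
    1 - (u : R) ∣ 1 - ((u ^ n : Rˣ) : R) := by
  cases n with
  | ofNat n => simpa using one_sub_dvd_one_sub_pow (u : R) n
  | negSucc n =>
    rw [zpow_negSucc]
    have h1 := one_sub_dvd_one_sub_pow (u : R) (n + 1)
    have h2 : 1 - (((u ^ (n + 1))⁻¹ : Rˣ) : R) =
        (1 - (u : R) ^ (n + 1)) * -(((u ^ (n + 1))⁻¹ : Rˣ) : R) := by
      have h3 : (u : R) ^ (n + 1) * (((u ^ (n + 1))⁻¹ : Rˣ) : R) = 1 := by
        rw [← Units.val_pow_eq_pow_val, Units.mul_inv]
      linear_combination -h3
    rw [h2]
    exact h1.mul_right _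

/-- The projection along `l`. -/
def proj (f : A →+ ℤ) (l : A) : A →+ A := AddMonoidHom.id A - (zmultiplesHom A l).comp f

theorem proj_apply (f : A →+ ℤ) (l g : A) : proj f l g = g - f g • l := rfl

theorem map_ex (π : A →+ A) (g : A) :
    AddMonoidAlgebra.mapDomainRingHom ℤ π (ex g) = ex (π g) := by
  simp [ex_val]

theorem ker_proj (f : A →+ ℤ) (l : A) (hl : f l = 1) (a : AddMonoidAlgebra ℤ A) :
    AddMonoidAlgebra.mapDomainRingHom ℤ (proj f l) a = 0 ↔
      1 - (ex l : AddMonoidAlgebra ℤ A) ∣ a := by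
  constructor
  · intro h0
    have h1 : ∀ a : AddMonoidAlgebra ℤ A, 1 - (ex l : AddMonoidAlgebra ℤ A) ∣
        AddMonoidAlgebra.mapDomainRingHom ℤ (proj f l) a - a := by
      intro a
      induction a using AddMonoidAlgebra.induction_on with
      | of g =>
        change _ ∣ AddMonoidAlgebra.mapDomainRingHom ℤ (proj f l) (ex g) - ex g
        rw [map_ex]
        have h2 : ex g = ex (proj f l g) * ex l ^ f g := by
          rw [← ex_zsmul, ← ex_add, proj_apply, sub_add_cancel]
        have h3 : (ex (proj f l g) : AddMonoidAlgebra ℤ A) - ex g =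
            ex (proj f l g) * (1 - ((ex l ^ f g : (AddMonoidAlgebra ℤ A)ˣ) : _)) := by
          conv_lhs => rw [h2]
          rw [Units.val_mul]
          ring
        rw [h3]
        exact (one_sub_dvd_zpow _ _).mul_left _
      | add x y hx hy =>
        rw [map_add, add_sub_add_comm]
        exact dvd_add hx hy
      | smul n x hx =>
        rw [map_zsmul, ← smul_sub, zsmul_eq_mul]
        exact hx.mul_left _
    have h2 := h1 a
    rwa [h0, zero_sub, dvd_neg] at h2
  · rintro ⟨a, rfl⟩
    rw [map_mul, map_sub, map_one, map_ex, proj_apply, hl, one_smul, sub_self, ex_zero]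
    simp

end

section
variable (ι : Type) [Fintype ι] [DecidableEq ι]

/-- The universal Laurent ring. -/
abbrev RR := AddMonoidAlgebra ℤ (Option ι → ℤ)

/-- Its fraction field. -/
abbrev KK := FractionRing (RR ι)

instance charZero_KK : CharZero (KK ι) :=
  charZero_of_injective_ringHom (f := (algebraMap (RR ι) (KK ι)).comp
    AddMonoidAlgebra.singleZeroRingHom)
    ((IsFractionRing.injective (RR ι) (KK ι)).comp AddMonoidAlgebra.single_right_injective)

/-- The variable `h`. -/
noncomputable def hU : (RR ι)ˣ := ex (Pi.single none 1)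

/-- The variables `Y i`. -/
noncomputable def YU (i : ι) : (RR ι)ˣ := ex (Pi.single (some i) 1)

variable {ι}

/-- The exponent of `Y c / Y b`. -/
def lp (b c : ι) : Option ι → ℤ := Pi.single (some c) 1 + -Pi.single (some b) 1

/-- The exponent of `h * Y b / Y c`. -/
def lh (b c : ι) : Option ι → ℤ :=
  Pi.single none 1 + Pi.single (some b) 1 + -Pi.single (some c) 1

/-- Evaluation at `Y c = Y b`. -/
noncomputable def φU (b c : ι) : RR ι →+* KK ι :=
  (algebraMap (RR ι) (KK ι)).comp (AddMonoidAlgebra.mapDomainRingHom ℤ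
    (proj (Pi.evalAddMonoidHom (fun _ => ℤ) (some c)) (lp b c)))

/-- Evaluation at `h = Y c / Y b`. -/
noncomputable def ψU (b c : ι) : RR ι →+* KK ι :=
  (algebraMap (RR ι) (KK ι)).comp (AddMonoidAlgebra.mapDomainRingHom ℤ
    (proj (Pi.evalAddMonoidHom (fun _ => ℤ) none) (lh b c)))

theorem pR_eq (b c : ι) : pR (YU ι) b c = 1 - (ex (lp b c) : RR ι) := by
  simp only [pR, YU, lp, ex_add, ex_neg]

theorem hR_eq (b c : ι) : hR (hU ι) (YU ι) b c = 1 - (ex (lh b c) : RR ι) := by
  simp only [hR, hU, YU, lh, ex_add, ex_neg]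

theorem gen_univ : Gen (hU ι) (YU ι) (φU (ι := ι)) ψU := by
  have inj := IsFractionRing.injective (RR ι) (KK ι)
  have hne : ∀ l : Option ι → ℤ, l ≠ 0 → 1 - (ex l : RR ι) ≠ 0 := by
    intro l hl h0
    apply hl
    apply ex_inj
    rw [ex_zero, Units.val_one]
    exact (sub_eq_zero.1 h0).symm
  have hφ : ∀ (b c : ι) (g g' : Option ι → ℤ), φU b c (ex g) = φU b c (ex g') →
      g - g (some c) • lp b c = g' - g' (some c) • lp b c := by
    intro b c g g' h
    simp only [φU, RingHom.comp_apply, map_ex] at h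
    exact ex_inj (inj h)
  have hψ : ∀ (b c : ι) (g g' : Option ι → ℤ), ψU b c (ex g) = ψU b c (ex g') →
      g - g none • lh b c = g' - g' none • lh b c := by
    intro b c g g' h
    simp only [ψU, RingHom.comp_apply, map_ex] at h
    exact ex_inj (inj h)
  refine
    { p0 := fun b c hbc => ?_
      h0 := fun b c => ?_
      pker := fun b c hbc a => ?_
      hker := fun b c a => ?_
      pY := fun b c hbc i j hij => ?_
      ph := fun b c hbc i j hij => ?_
      hY := fun b c i j hij h1 => ?_
      hh := fun b c i j hij => ?_ }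
  · rw [pR_eq]
    refine hne _ fun h => ?_
    simpa [lp, hbc.symm] using congrFun h (some c)
  · rw [hR_eq]
    refine hne _ fun h => ?_
    simpa [lh] using congrFun h none
  · rw [pR_eq, ← ker_proj (Pi.evalAddMonoidHom (fun _ => ℤ) (some c)) _ (by simp [lp, hbc.symm])]
    exact map_eq_zero_iff _ inj
  · rw [hR_eq, ← ker_proj (Pi.evalAddMonoidHom (fun _ => ℤ) none) _ (by simp [lh])]
    exact map_eq_zero_iff _ inj
  · have h1 := hφ b c _ _ hij
    by_contra hn
    push Not at hn
    obtain ⟨h2, h3, h4⟩ := hn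
    by_cases hi : i = c
    · subst hi
      have := congrFun h1 (some j)
      simp [lp, h2, Ne.symm h2, h4 rfl] at this
    · have := congrFun h1 (some i)
      by_cases hj : j = c
      · subst hj
        have h5 : i ≠ b := fun h => h3 h rfl
        simp [lp, h2, Ne.symm h2, h5] at this
      · simp [lp, h2, Ne.symm hi, Ne.symm hj] at this
  · unfold im hU YU at hij
    rw [← map_mul, ← Units.val_mul, ← ex_add] at hij
    simpa [lp] using congrFun (hφ b c _ _ hij) none
  · simpa [hij] using congrFun (hψ b c _ _ h1) (some i)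
  · unfold im hU YU at hij
    rw [← map_mul, ← Units.val_mul, ← ex_add] at hij
    have h1 := hψ b c _ _ hij
    by_contra hn
    push Not at hn
    obtain ⟨h2, h3⟩ := hn
    have h4 := congrFun h1 (some i)
    have h5 := congrFun h1 (some j)
    simp only [lh, Pi.single_apply, Pi.sub_apply, Pi.add_apply, Pi.smul_apply, Pi.neg_apply,
      reduceCtorEq, if_true, if_false, Option.some.injEq, h3, Ne.symm h3, smul_eq_mul] at h4 h5
    split_ifs at h4 h5 <;> simp_all

end

theorem span : SpanStmt := by
  intro F _ ι _ _ h Y e v v' hv hh hY hYY hhY d r ν hr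
  classical
  let U : Option ι → Fˣ := fun o => o.elim (Units.mk0 h hh) fun b => Units.mk0 (Y b) (hY b)
  let m : Multiplicative (Option ι → ℤ) →* F :=
    { toFun := fun g => ((∏ o, U o ^ g.toAdd o : Fˣ) : F)
      map_one' := by simp
      map_mul' := fun g g' => by simp [zpow_add, prod_mul_distrib] }
  let χ : RR ι →+* F := (AddMonoidAlgebra.lift ℤ F _ m).toRingHom
  have hχ : ∀ g : Option ι → ℤ, χ (ex g) = h ^ g none * ∏ b, Y b ^ g (some b) := by
    intro g
    change AddMonoidAlgebra.lift ℤ F _ m (AddMonoidAlgebra.single g 1) = _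
    simp [m, U, Fintype.prod_option]
  have hχh : χ (hU ι) = h := by simp [hU, hχ]
  have hχY : im χ (YU ι) = Y := by
    funext i
    simp only [im, YU, hχ]
    rw [prod_eq_single i]
    · simp
    · intro b _ hb; simp [hb]
    · simp
  have hχY' : im χ (YU ι)⁻¹ = fun b => (Y b)⁻¹ := by
    funext i; rw [im_inv, hχY]
  set T := AddSubgroup.closure
    {f : Finset ι → F | ∃ (j : ℤ) (κ : ι → ℤ) (d' r' ν' : Fin v' → ℤ),
      Function.Injective r' ∧
      f = fun I => h ^ j * (∏ b, Y b ^ κ b) *
        vecB h (fun b => (Y b)⁻¹) (fun b => -e b) d' r' ν' Iᶜ} with hT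
  have hmon : ∀ g : Option ι → ℤ, ∀ f ∈ T, χ (ex g) • f ∈ T := by
    intro g f hf
    induction hf using AddSubgroup.closure_induction with
    | mem f hf =>
      obtain ⟨j, κ, d', r', ν', hr', rfl⟩ := hf
      refine AddSubgroup.subset_closure
        ⟨g none + j, fun b => g (some b) + κ b, d', r', ν', hr', ?_⟩
      funext I
      simp only [Pi.smul_apply, smul_eq_mul, hχ, zpow_add₀ hh, zpow_add₀ (hY _),
        prod_mul_distrib]
      ring
    | zero => simp
    | add f f' _ _ ih ih' => rw [smul_add]; exact add_mem ih ih'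
    | neg f _ ih => rw [smul_neg]; exact neg_mem ih
  have hsm : ∀ a : RR ι, ∀ f ∈ T, χ a • f ∈ T := by
    intro a f hf
    induction a using AddMonoidAlgebra.induction_on with
    | of g => exact hmon g f hf
    | add x y hx hy => rw [map_add, add_smul]; exact add_mem hx hy
    | smul n x hx => rw [map_zsmul, smul_assoc]; exact zsmul_mem hx n
  have hspan : ∀ f ∈ Submodule.span (RR ι) (gens (KK ι) (hU ι) (YU ι)⁻¹ (fun b => -e b) v'),
      ∃ f' ∈ T, ∀ I, Val χ (f Iᶜ) (f' I) := by
    intro f hf
    induction hf using Submodule.span_induction with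
    | mem f hf =>
      obtain ⟨d', r', ν', hr', rfl⟩ := hf
      refine ⟨_, AddSubgroup.subset_closure ⟨0, 0, d', r', ν', hr', rfl⟩, fun I => ?_⟩
      simp only [zpow_zero, Pi.zero_apply, prod_const_one, one_mul]
      refine val_vecB (hχh ▸ Val.alg _) (fun i => ?_) (fun i => inv_ne_zero (hY i))
        (fun i j hij h1 => hYY i j hij (inv_injective h1)) (fun i j h1 => hhY j i ?_) _ _ _ _ _
      · rw [← congrFun hχY' i]; exact Val.alg _
      · have := hY i
        have := hY j
        field_simp at h1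
        exact h1
    | zero => exact ⟨0, zero_mem _, fun I => Val.zero⟩
    | add f g _ _ ih ih' =>
      obtain ⟨f', hf', h1⟩ := ih
      obtain ⟨g', hg', h2⟩ := ih'
      exact ⟨f' + g', add_mem hf' hg', fun I => (h1 I).add (h2 I)⟩
    | smul a f _ ih =>
      obtain ⟨f', hf', h1⟩ := ih
      refine ⟨χ a • f', hsm a f' hf', fun I => ?_⟩
      rw [Pi.smul_apply, Algebra.smul_def]
      exact (Val.alg a).mul (h1 I)
  obtain ⟨f', hf', h1⟩ := hspan _
    (HH_le_span gen_univ.dual _ v' (HH_dual hv (vecB_mem gen_univ e d r ν hr)))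
  have h2 : vecB h Y e d r ν = f' := by
    funext I
    have h3 := h1 I
    simp only [compl_compl] at h3
    refine Val.unique (val_vecB (hχh ▸ Val.alg _) (fun i => ?_) hY hYY hhY e d r ν I) h3
    rw [← congrFun hχY i]; exact Val.alg _
  rw [h2]
  exact hf'

end Pool.Agent.MP_8be872_ag.H20
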